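import Pool.Agent.Work.MP_db9399_ts_helper39.OSYS
import Pool.Agent.Work.MP_db9399_ts_helper83.CELL
import Pool.Agent.Work.MP_db9399_trl_helper59.Dbl
import Pool.Agent.Work.MP_db9399_oo_helper75.RND
import Pool.Agent.Work.MP_db9399_oo_helper89.HLV

/-!
# MP_db9399, TSPLIT, block OSYS (helper39), without hypotheses
-/

set_option autoImplicit false

namespace Pool.Agent.Work.MP_db9399_ts.helper39

universe u

theorem stmt_OSYS : Pool.Agent.Work.MP_db9399_ts.Stmt_OSYS.{u} :=
  stmt_OSYS' (MP_db9399_ts.helper83.stmt_CELL MP_db9399_trl_helper59.stmt_TRAIL)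
    MP_db9399_oo.helper89.stmt_HLV MP_db9399_oo.helper75.stmt_RND

end Pool.Agent.Work.MP_db9399_ts.helper39
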