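import Pool.Agent.Work.MP_db9399_ts_helper39.Cells

/-!
# MP_db9399, TSPLIT, OSYS, part 6: sets, the structure `Arcs` (helper39)
-/

set_option autoImplicit false

namespace Pool.Agent.Work.MP_db9399_ts.helper39

open Finset Classical
open Pool.Agent.Work.MP_db9399_all (nb)
open Pool.Agent.Work.MP_db9399_clj.helper75 (OO blk nB eE cO lgF)
open Pool.Agent.Work.MP_db9399_ts

universe u

/-- random sets -/
theorem sets_ex (hRND : MP_db9399_oo.Stmt_RND.{u}) (ι : Type u) [Fintype ι] : ∃ d0 : ℕ,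
    ∀ {W : Type u} [Fintype W] (G : SimpleGraph W) (O : Finset W) (d : ℕ) (p : Fin 4 → ℝ)
      (S : ι → W → Finset W), d0 ≤ d → (∀ v, (nb G v).card ≤ d) → (∀ m v, S m v ⊆ nb G v ∩ O) →
      (∀ j, 0 ≤ p j) → ∑ j, p j = 1 →
      ∃ L : W → Fin 4, (∀ v, v ∉ O → L v = 3) ∧
        ∀ m v j, |(((S m v).filter fun y => L y = j).card : ℝ) - p j * (S m v).card| ≤
          Real.log d * Real.sqrt d := by
  obtain ⟨d0, h⟩ := hRND 2 4 (by norm_num) (by norm_num)
  refine ⟨d0 + Fintype.card ι + 2, ?_⟩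
  intro W _ G O d p S hd hG hS hp hp1
  have hd2 : 2 ≤ d := by omega
  have hd0 : d0 ≤ d := by omega
  have hn : Fintype.card ι ≤ d := by omega
  have hdr : (2 : ℝ) ≤ d := by exact_mod_cast hd2
  have hFam : Fam (fun (t : W × ι) y => if y ∈ S t.2 t.1 then (1 : ℝ) else 0) d 2 := by
    refine Fam.mono (Fam.prod (A := 1) (fun i => fam_near G d hG hd2 _ fun x y hne => ?_) hd2 hn)
      hd2 (by norm_num)
    by_contra h1
    refine hne (if_neg fun h2 => h1 ?_)
    have := (mem_inter.1 (hS i x h2)).1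
    simpa [nb] using this
  obtain ⟨L, hL1, hL2⟩ := h (κ := W × ι) (fun v j => if v ∈ O then p j else if j = 3 then 1 else 0)
    (fun t y => if y ∈ S t.2 t.1 then (1 : ℝ) else 0) d hd0 (by
      intro v j
      show (0 : ℝ) ≤ if v ∈ O then p j else if j = 3 then 1 else 0
      split_ifs
      · exact hp j
      · exact zero_le_one
      · exact le_rfl) (by
      intro v
      show (∑ j : Fin 4, if v ∈ O then p j else if j = 3 then (1 : ℝ) else 0) = 1
      by_cases hv : v ∈ O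
      · simp only [if_pos hv]; exact hp1
      · simp only [if_neg hv]; simp) hFam.sp hFam.mu
  refine ⟨L, fun v hv => ?_, fun m v j => ?_⟩
  · have h1 := hL1 v
    simp only [if_neg hv] at h1
    by_contra h2
    simp [h2] at h1
  · have h1 := hL2 (v, m) j
    have e1 : ∑ y, (if y ∈ S m v then (1 : ℝ) else 0) *
        ((if L y = j then (1 : ℝ) else 0) - if y ∈ O then p j else if j = 3 then 1 else 0) =
        (((S m v).filter fun y => L y = j).card : ℝ) - p j * (S m v).card := by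
      rw [← Finset.sum_boole]
      rw [show p j * ((S m v).card : ℝ) = ∑ _y ∈ S m v, p j by
        rw [sum_const, nsmul_eq_mul, mul_comm], ← sum_sub_distrib]
      rw [← Finset.sum_subset (subset_univ (S m v))]
      · refine sum_congr rfl fun y hy => ?_
        rw [if_pos hy, one_mul, if_pos (mem_inter.1 (hS m v hy)).2]
      · intro y _ hy
        rw [if_neg hy, zero_mul]
    have e2 : ∑ y, (if y ∈ S m v then (1 : ℝ) else 0) ^ 2 ≤ d := by
      have : ∑ y, (if y ∈ S m v then (1 : ℝ) else 0) ^ 2 = ((S m v).card : ℝ) := by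
        rw [← Finset.sum_subset (subset_univ (S m v))]
        · rw [sum_congr rfl fun y hy => by rw [if_pos hy, one_pow]]
          rw [sum_const, nsmul_eq_mul, mul_one]
        · intro y _ hy
          rw [if_neg hy]; norm_num
      rw [this, Nat.cast_le]
      exact (card_le_card ((hS m v).trans inter_subset_left)).trans (hG v)
    rw [← e1]
    refine h1.trans ?_
    refine mul_le_mul_of_nonneg_left (Real.sqrt_le_sqrt e2) (Real.log_nonneg (by linarith))

section arcs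

variable {W B : Type u} [Fintype W] [Fintype B]

/-- `Y` comes from the systems `R` and cells `c`. -/
structure Ys (k : ℕ) (Y : Arcs W) (R : Bool → W → W → Prop) (c : Bool → W → W → ℕ) : Prop where
  ar : ∀ s v w, (Y.ar v w ∧ Y.sy v w = s) ↔ R s v w
  ce : ∀ s v w, R s v w → Y.ce v w = c s v w
  lt : ∀ s v w, c s v w < 2 ^ k

theorem Ys.rev {k : ℕ} {Y : Arcs W} {R : Bool → W → W → Prop} {c : Bool → W → W → ℕ}
    (h : Ys k Y R c) : Ys k Y.rev (fun s => rv (R s)) (fun s => sw (c s)) :=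
  ⟨fun s v w => h.ar s w v, fun s v w => h.ce s w v, fun s v w => h.lt s w v⟩

theorem oc_eq {k : ℕ} {Y : Arcs W} {R : Bool → W → W → Prop} {c : Bool → W → W → ℕ}
    (h : Ys k Y R c) (s : Bool) (T : Finset ℕ) (x : W) :
    Y.oc s T x = ∑ i ∈ T, ct (inC (R s) (c s) i) x := by
  unfold Arcs.oc
  simp only [ct_eq]
  rw [sum_comm, ← Finset.sum_boole]
  refine sum_congr rfl fun y _ => ?_
  by_cases h1 : R s x y
  · obtain ⟨h2, h3⟩ := (h.ar s x y).2 h1
    have h4 := h.ce s x y h1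
    unfold inC
    by_cases h5 : c s x y ∈ T
    · have h6 : Y.ce x y ∈ T := by rw [h4]; exact h5
      rw [if_pos ⟨h2, h3, h6⟩]
      simp only [h1, true_and]
      rw [Finset.sum_ite_eq, if_pos h5]
    · have h6 : Y.ce x y ∉ T := by rw [h4]; exact h5
      rw [if_neg fun h7 => h6 h7.2.2]
      simp only [h1, true_and]
      rw [Finset.sum_ite_eq, if_neg h5]
  · rw [if_neg fun h2 => h1 ((h.ar s x y).1 ⟨h2.1, h2.2.1⟩)]
    symm
    refine sum_eq_zero fun i _ => if_neg fun h2 => h1 h2.1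

theorem oc_range {k : ℕ} {Y : Arcs W} {R : Bool → W → W → Prop} {c : Bool → W → W → ℕ}
    (h : Ys k Y R c) (s : Bool) (x : W) : Y.oc s (range (2 ^ k)) x = ct (R s) x := by
  unfold Arcs.oc ct
  congr 1
  refine congrArg _ (Finset.filter_congr fun y _ => ?_)
  constructor
  · rintro ⟨h1, h2, _⟩
    exact (h.ar s x y).1 ⟨h1, h2⟩
  · intro h1
    obtain ⟨h2, h3⟩ := (h.ar s x y).2 h1
    refine ⟨h2, h3, mem_range.2 ?_⟩
    rw [h.ce s x y h1]
    exact h.lt s x y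

theorem nz_eq {k : ℕ} {Y : Arcs W} {R : Bool → W → W → Prop} {c : Bool → W → W → ℕ}
    (h : Ys k Y R c) {σ : Fin 6 → ℝ} {bs fl : Fin 6 → Finset ℕ} (hC : Cells k σ bs fl)
    {j : Fin 6} (hj : j ≠ 5) (s : Bool) (x : W) :
    Y.nz k σ bs fl j s x = nzr k σ bs fl (R s) (c s) j x := by
  unfold Arcs.nz nzr nzf dv
  rw [oc_eq h, oc_eq h, oc_range h, sum_sub_distrib, sum_sub_distrib, sum_const, sum_const,
    hC.f3 j hj, nsmul_eq_mul, nsmul_eq_mul]
  unfold wc
  have h2 : (2 : ℝ) ^ k ≠ 0 := by positivity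
  field_simp
  push_cast
  ring

/-- one direction -/
theorem ohf_of (k : ℕ) (μ : ℝ) (hμ : 0 < μ) (hμ1 : μ ≤ 1) : ∃ d0 : ℕ,
    ∀ {W B τ : Type u} [Fintype W] [Fintype B]
      (X : Dat W B) (σ : Fin 6 → ℝ) (bs fl : Fin 6 → Finset ℕ) (Y : Arcs W) (MI : Finset W)
      (R : Bool → W → W → Prop) (c : Bool → W → W → ℕ) (f : τ → W → ℝ), d0 ≤ X.d →
      Cells k σ bs fl → (∀ j, 0 ≤ σ j ∧ σ j ≤ 1) → Ys k Y R c →
      Dn k X.d σ bs fl X.h1 f R c → (∀ s x, X.h1 x → (X.d : ℝ) / 10 ≤ ct (R s) x) →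
      (∀ x j, |((MI.filter fun y => Y.ar x y ∧ Y.ce x y ∈ fl j).card : ℝ) -
        μ * ((univ.filter fun y => Y.ar x y ∧ Y.ce x y ∈ fl j).card : ℝ)| ≤
        Real.log X.d * Real.sqrt X.d) →
      Ohf X k σ bs fl (μ / (4 * 2 ^ k)) Y MI := by
  obtain ⟨b1, hb1⟩ := big 3 0 (485 / 1000) (49 / 100) (by norm_num)
  obtain ⟨b2, hb2⟩ := big (40 * 2 ^ k / μ) 1 (1 / 2) 1 (by norm_num)
  refine ⟨b1 + b2 + 3, ?_⟩
  intro W B τ _ _ X σ bs fl Y MI R c f hd hC hσ hY hDn hbig hMI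
  have hd3 : 3 ≤ X.d := by omega
  have hdr : (3 : ℝ) ≤ X.d := by exact_mod_cast hd3
  have hdp : (0 : ℝ) < X.d := by linarith
  have hlog : 1 ≤ Real.log X.d := by
    rw [← Real.log_exp 1]
    exact Real.log_le_log (Real.exp_pos _) (by linarith [Real.exp_one_lt_d9])
  have h2k : (1 : ℝ) ≤ 2 ^ k := one_le_pow₀ (by norm_num)
  have h2kp : (0 : ℝ) < 2 ^ k := by positivity
  have B1 : 3 * (X.d : ℝ) ^ (485 / 1000 : ℝ) ≤ (X.d : ℝ) ^ (49 / 100 : ℝ) := by
    have := hb1 X.d (by omega)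
    rwa [pow_zero, mul_one] at this
  have B2 : 40 * 2 ^ k / μ * Real.log X.d * (X.d : ℝ) ^ (1 / 2 : ℝ) ≤ X.d := by
    have := hb2 X.d (by omega)
    rwa [pow_one, Real.rpow_one] at this
  have p0 : 0 ≤ (X.d : ℝ) ^ (485 / 1000 : ℝ) := Real.rpow_nonneg hdp.le _
  have hdv : ∀ s i x, i < 2 ^ k → |dv k (R s) (c s) i x| ≤
      (X.d : ℝ) ^ (485 / 1000 : ℝ) / 2 ^ k := by
    intro s i x hi
    rw [le_div_iff₀ h2kp, mul_comm]
    exact hDn.dv s i x hi
  have hnz : ∀ s x j, j ≠ 5 → Y.nz k σ bs fl j s x = nzr k σ bs fl (R s) (c s) j x :=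
    fun s x j hj => nz_eq hY hC hj s x
  have hus : ∀ x s j, j ≠ 5 → |Y.oc s (fl j) x - 3 / 2 ^ k * Y.oc s (range (2 ^ k)) x| ≤
      (X.d : ℝ) ^ (49 / 100 : ℝ) := by
    intro x s j hj
    rw [oc_eq hY, oc_range hY]
    have e1 : ∑ i ∈ fl j, ct (inC (R s) (c s) i) x - 3 / 2 ^ k * ct (R s) x =
        ∑ i ∈ fl j, dv k (R s) (c s) i x := by
      unfold dv
      rw [sum_sub_distrib, sum_const, hC.f3 j hj, nsmul_eq_mul]
      push_cast
      ring
    rw [e1]
    calc |∑ i ∈ fl j, dv k (R s) (c s) i x| ≤ ∑ i ∈ fl j, |dv k (R s) (c s) i x| :=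
          abs_sum_le_sum_abs _ _
      _ ≤ ∑ _i ∈ fl j, (X.d : ℝ) ^ (485 / 1000 : ℝ) / 2 ^ k :=
          sum_le_sum fun i hi => hdv s i x (mem_range.1 (hC.flr j hi))
      _ = 3 * ((X.d : ℝ) ^ (485 / 1000 : ℝ) / 2 ^ k) := by
          rw [sum_const, hC.f3 j hj, nsmul_eq_mul]; push_cast; ring
      _ ≤ 3 * (X.d : ℝ) ^ (485 / 1000 : ℝ) :=
          mul_le_mul_of_nonneg_left (div_le_self p0 h2k) (by norm_num)
      _ ≤ _ := B1
  refine ⟨?_, ?_, hus, ?_, ?_⟩
  · intro x hx s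
    rw [oc_range hY]
    exact hbig s x hx
  · intro x s j hj
    rw [hnz s x j hj]
    have e1 := nzf_le hC hσ hj (D := fun i => dv k (R s) (c s) i x)
      (M := (X.d : ℝ) ^ (485 / 1000 : ℝ) / 2 ^ k) (by positivity) fun i hi => hdv s i x hi
    rw [mul_div_cancel₀ _ h2kp.ne'] at e1
    refine e1.trans ?_
    linarith
  · intro x s j hj
    refine le_trans (le_of_eq ?_) (hDn.av s x j hj)
    congr 1
    rw [Finset.sum_filter]
    refine sum_congr rfl fun y _ => ?_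
    have e1 : (Y.ar y x ∧ Y.sy y x = s ∧ Y.ce y x ∈ fl j ∧ X.h1 y) ↔
        (R s y x ∧ c s y x ∈ fl j ∧ X.h1 y) := by
      constructor
      · rintro ⟨h1, h2, h3, h4⟩
        have h5 := (hY.ar s y x).1 ⟨h1, h2⟩
        rw [hY.ce s y x h5] at h3
        exact ⟨h5, h3, h4⟩
      · rintro ⟨h1, h2, h3⟩
        obtain ⟨h4, h5⟩ := (hY.ar s y x).2 h1
        refine ⟨h4, h5, ?_, h3⟩
        rw [hY.ce s y x h1]
        exact h2
    by_cases h1 : R s y x ∧ c s y x ∈ fl j ∧ X.h1 y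
    · rw [if_pos h1, if_pos (e1.2 h1), hnz _ y j hj, oc_range hY]
    · rw [if_neg h1, if_neg fun h2 => h1 (e1.1 h2)]
  · intro x hx j hj
    have e1 := (abs_le.1 (hMI x j)).1
    have e2 : Y.oc true (fl j) x ≤
        ((univ.filter fun y => Y.ar x y ∧ Y.ce x y ∈ fl j).card : ℝ) := by
      unfold Arcs.oc
      rw [Nat.cast_le]
      refine card_le_card fun y hy => ?_
      simp only [mem_filter, mem_univ, true_and] at hy ⊢
      exact ⟨hy.1, hy.2.2⟩
    have e3 := (abs_le.1 (hus x true j hj)).1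
    have e4 := hbig true x hx
    rw [oc_range hY] at e3
    have e5 : 3 / 2 ^ k * ((X.d : ℝ) / 10) ≤ 3 / 2 ^ k * ct (R true) x :=
      mul_le_mul_of_nonneg_left e4 (by positivity)
    have e6 : (X.d : ℝ) ^ (49 / 100 : ℝ) ≤ (X.d : ℝ) ^ (1 / 2 : ℝ) :=
      Real.rpow_le_rpow_of_exponent_le (by linarith) (by norm_num)
    have e7 : μ * (3 / 2 ^ k * ((X.d : ℝ) / 10) - (X.d : ℝ) ^ (1 / 2 : ℝ)) ≤
        μ * ((univ.filter fun y => Y.ar x y ∧ Y.ce x y ∈ fl j).card : ℝ) :=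
      mul_le_mul_of_nonneg_left (by linarith) hμ.le
    rw [Real.sqrt_eq_rpow] at e1
    set Z := (X.d : ℝ) ^ (1 / 2 : ℝ) with hZ
    have hZ0 : 0 ≤ Z := Real.rpow_nonneg hdp.le _
    have e8 : μ * Z ≤ Real.log X.d * Z := mul_le_mul_of_nonneg_right (by linarith) hZ0
    have e9 : 2 * (Real.log X.d * Z) ≤ μ / (20 * 2 ^ k) * X.d := by
      have h1 := mul_le_mul_of_nonneg_left B2 (by positivity : 0 ≤ μ / (20 * 2 ^ k))
      have h2 : μ / (20 * 2 ^ k) * (40 * 2 ^ k / μ * Real.log X.d * Z) =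
          2 * (Real.log X.d * Z) := by
        field_simp
        ring
      linarith
    have e10 : μ * (3 / 2 ^ k * ((X.d : ℝ) / 10)) =
        μ / (4 * 2 ^ k) * X.d + μ / (20 * 2 ^ k) * X.d := by
      field_simp
      ring
    have e11 : μ * (3 / 2 ^ k * ((X.d : ℝ) / 10) - Z) =
        μ * (3 / 2 ^ k * ((X.d : ℝ) / 10)) - μ * Z := by ring
    linarith

end arcs

end Pool.Agent.Work.MP_db9399_ts.helper39
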