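import Pool.Agent.Work.MP_db9399_ts.OO
import Pool.Agent.Work.MP_db9399_oo.Interface

/-!
# MP_db9399, TSPLIT, OSYS, part 1: graph form of CELL (helper39)
-/

set_option autoImplicit false

namespace Pool.Agent.Work.MP_db9399_ts.helper39

open Finset Classical
open Pool.Agent.Work.MP_db9399_all (nb)
open Pool.Agent.Work.MP_db9399_ts

universe u

section basic

variable {W : Type u} [Fintype W]

/-- sum over the arcs -/
noncomputable def asum (R : W → W → Prop) (F : W → W → ℝ) : ℝ :=
  ∑ v, ∑ w, if R v w then F v w else 0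

/-- number of the out-arcs -/
noncomputable def ct (R : W → W → Prop) (v : W) : ℝ := ((univ.filter fun w => R v w).card : ℝ)

/-- arcs of `R` in the cell `i` -/
def inC (R : W → W → Prop) (ce : W → W → ℕ) (i : ℕ) (v w : W) : Prop := R v w ∧ ce v w = i

/-- reversed relation -/
def rv (R : W → W → Prop) (v w : W) : Prop := R w v

/-- The tests `a` on the arcs have supports and multiplicities at most `d ^ A`. -/
structure FamA {τ : Type u} [Fintype τ] (R : W → W → Prop) (a : τ → W → W → ℝ) (d : ℕ) (A : ℝ) :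
    Prop where
  sp : ∀ t, ((univ.filter fun p : W × W => R p.1 p.2 ∧ a t p.1 p.2 ≠ 0).card : ℝ) ≤ (d : ℝ) ^ A
  mu : ∀ v w, R v w → ((univ.filter fun t => a t v w ≠ 0).card : ℝ) ≤ (d : ℝ) ^ A

theorem asum_nonneg {R : W → W → Prop} {F : W → W → ℝ} (h : ∀ v w, R v w → 0 ≤ F v w) :
    0 ≤ asum R F := by
  refine sum_nonneg fun v _ => sum_nonneg fun w _ => ?_
  split_ifs with h1
  · exact h v w h1
  · exact le_rfl

theorem asum_congr {R : W → W → Prop} {F F' : W → W → ℝ} (h : ∀ v w, R v w → F v w = F' v w) :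
    asum R F = asum R F' := by
  refine sum_congr rfl fun v _ => sum_congr rfl fun w _ => ?_
  split_ifs with h1
  · exact h v w h1
  · rfl

theorem asum_mono {R : W → W → Prop} {F F' : W → W → ℝ} (h : ∀ v w, R v w → F v w ≤ F' v w) :
    asum R F ≤ asum R F' := by
  refine sum_le_sum fun v _ => sum_le_sum fun w _ => ?_
  split_ifs with h1
  · exact h v w h1
  · exact le_rfl

/-- `ct` as an arc sum -/
theorem ct_eq (R : W → W → Prop) (v : W) : ct R v = ∑ w, if R v w then (1 : ℝ) else 0 := by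
  unfold ct
  rw [Finset.sum_boole]

theorem ct_nonneg (R : W → W → Prop) (v : W) : 0 ≤ ct R v := Nat.cast_nonneg _

/-- degree type sums -/
theorem asum_out (R : W → W → Prop) (f : W → ℝ) : asum R (fun v _ => f v) = ∑ v, f v * ct R v := by
  unfold asum
  refine sum_congr rfl fun v _ => ?_
  rw [ct_eq, mul_sum]
  refine sum_congr rfl fun w _ => ?_
  split_ifs
  · rw [mul_one]
  · rw [mul_zero]

theorem asum_in (R : W → W → Prop) (f : W → ℝ) :
    asum R (fun _ w => f w) = ∑ w, f w * ct (rv R) w := by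
  unfold asum
  rw [sum_comm]
  refine sum_congr rfl fun v _ => ?_
  rw [ct_eq, mul_sum]
  refine sum_congr rfl fun w _ => ?_
  unfold rv
  split_ifs
  · rw [mul_one]
  · rw [mul_zero]

/-- sums over the type of the arcs -/
theorem sum_arcs (R : W → W → Prop) (F : W → W → ℝ) :
    ∑ e : {p : W × W // R p.1 p.2}, F e.1.1 e.1.2 = asum R F := by
  unfold asum
  rw [← Fintype.sum_prod_type' (f := fun v w => if R v w then F v w else 0)]
  rw [← Finset.sum_filter, ← Finset.sum_subtype_eq_sum_filter (fun p : W × W => F p.1 p.2)]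
  simp

theorem asum_fst (R : W → W → Prop) (v : W) (F : W → W → ℝ) :
    asum R (fun v' w => if v' = v then F v' w else 0) = ∑ w, if R v w then F v w else 0 := by
  unfold asum
  rw [sum_eq_single v]
  · refine sum_congr rfl fun w _ => ?_
    simp only [if_true]
  · intro v' _ hv
    refine sum_eq_zero fun w _ => ?_
    simp only [if_neg hv, ite_self]
  · intro h; exact absurd (mem_univ v) h

theorem asum_snd (R : W → W → Prop) (w : W) (F : W → W → ℝ) :
    asum R (fun v w' => if w' = w then F v w' else 0) = ∑ v, if R v w then F v w else 0 := by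
  unfold asum
  refine sum_congr rfl fun v _ => ?_
  rw [sum_eq_single w]
  · simp only [if_true]
  · intro w' _ hw
    simp only [if_neg hw, ite_self]
  · intro h; exact absurd (mem_univ w) h

end basic

/-- graph form of `Stmt_CELL` -/
theorem cellG (hCELL : Stmt_CELL.{u}) (k : ℕ) (A γ : ℝ) (hA : 0 < A) (hγ : 0 < γ)
    (hγ1 : γ ≤ 1 / 2) : ∃ d0 : ℕ, ∀ {W τ τ' : Type u} [Fintype W] [Fintype τ] [Fintype τ']
    (R : W → W → Prop) (d : ℕ) (a : τ → W → W → ℝ) (f : τ' → W → ℝ), d0 ≤ d →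
    (∀ v, ct R v ≤ d) → (∀ v, ct (rv R) v ≤ d) → FamA R a d A → Fam f d A →
    ∃ ce : W → W → ℕ, (∀ v w, ce v w < 2 ^ k) ∧
      (∀ t i, i < 2 ^ k → |asum (inC R ce i) (a t) - asum R (a t) / 2 ^ k| ≤
        Real.log d ^ 2 * (d : ℝ) ^ (γ / 2) * Real.sqrt (asum R fun v w => a t v w ^ 2)) ∧
      (∀ t i, i < 2 ^ k → |∑ v, f t v * (ct (inC R ce i) v - ct R v / 2 ^ k)| ≤
        Real.log d ^ 2 * Real.sqrt (∑ v, f t v ^ 2 * (ct R v / (d : ℝ) ^ γ + 1))) ∧
      ∀ t i, i < 2 ^ k → |∑ v, f t v * (ct (rv (inC R ce i)) v - ct (rv R) v / 2 ^ k)| ≤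
        Real.log d ^ 2 * Real.sqrt (∑ v, f t v ^ 2 * (ct (rv R) v / (d : ℝ) ^ γ + 1)) := by
  obtain ⟨d0, h⟩ := hCELL k A γ hA hγ hγ1
  refine ⟨d0, ?_⟩
  intro W τ τ' _ _ _ R d a f hd h1 h2 hFa hFf
  set E := {p : W × W // R p.1 p.2} with hE
  have key : ∀ F : W → W → ℝ, ∑ e : E, F e.1.1 e.1.2 = asum R F := sum_arcs R
  have cout : ∀ v, ((univ.filter fun e : E => e.1.1 = v).card : ℝ) = ct R v := by
    intro v
    rw [← Finset.sum_boole, ct_eq]
    exact (key fun v' _ => if v' = v then (1 : ℝ) else 0).trans (asum_fst R v fun _ _ => 1)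
  have cin : ∀ v, ((univ.filter fun e : E => e.1.2 = v).card : ℝ) = ct (rv R) v := by
    intro v
    rw [← Finset.sum_boole, ct_eq]
    exact (key fun _ v' => if v' = v then (1 : ℝ) else 0).trans (asum_snd R v fun _ _ => 1)
  have hFa' : Fam (fun t (e : E) => a t e.1.1 e.1.2) d A := by
    refine ⟨fun t => ?_, fun e => hFa.mu _ _ e.2⟩
    refine le_trans (le_of_eq ?_) (hFa.sp t)
    rw [← Finset.sum_boole, ← Finset.sum_boole, Fintype.sum_prod_type]
    have h3 := key fun v w => if a t v w = 0 then (0 : ℝ) else 1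
    unfold asum at h3
    refine Eq.trans (sum_congr rfl fun e _ => ?_) (h3.trans
      (sum_congr rfl fun v _ => sum_congr rfl fun w _ => ?_))
    · by_cases h4 : a t e.1.1 e.1.2 = 0 <;> simp [h4]
    · by_cases h4 : a t v w = 0 <;> by_cases h5 : R v w <;> simp [h4, h5]
  obtain ⟨q, hq, hq1, hq2, hq3⟩ := h (E := E) (V := W) (fun e => e.1.1) (fun e => e.1.2) d
    (fun t (e : E) => a t e.1.1 e.1.2) f hd (fun v => by rw [cout]; exact h1 v)
    (fun v => by rw [cin]; exact h2 v) hFa' hFf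
  obtain ⟨c, hc, hcq⟩ : ∃ c : W → W → ℕ, (∀ v w, c v w < 2 ^ k) ∧
      ∀ e : E, c e.1.1 e.1.2 = q e := by
    refine ⟨fun v w => if hR : R v w then q ⟨(v, w), hR⟩ else 0, ?_, ?_⟩
    · intro v w
      show (if hR : R v w then q ⟨(v, w), hR⟩ else 0) < 2 ^ k
      split_ifs with hR
      · exact hq _
      · positivity
    · intro e
      have : R e.1.1 e.1.2 := e.2
      simp [this]
  refine ⟨c, hc, ?_, ?_, ?_⟩
  · intro t i hi
    refine le_trans (le_of_eq ?_) (le_trans (hq1 t i hi) (le_of_eq ?_))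
    · congr 1
      have h3 := key fun v w => a t v w * ((if c v w = i then 1 else 0) - 1 / 2 ^ k)
      simp only [hcq] at h3
      rw [h3]
      unfold asum inC
      rw [sum_div, ← sum_sub_distrib]
      refine sum_congr rfl fun v _ => ?_
      rw [sum_div, ← sum_sub_distrib]
      refine sum_congr rfl fun w _ => ?_
      by_cases h4 : R v w <;> by_cases h5 : c v w = i <;> simp [h4, h5] <;> ring
    · rw [key fun v w => a t v w ^ 2]
  · intro t i hi
    refine le_trans (le_of_eq ?_) (le_trans (hq2 t i hi) (le_of_eq ?_))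
    · congr 1
      refine sum_congr rfl fun v _ => ?_
      rw [cout]
      congr 2
      rw [← Finset.sum_boole, ct_eq]
      have h3 := key fun v' w => if v' = v then (if c v' w = i then (1 : ℝ) else 0) else 0
      rw [asum_fst R v fun v' w => if c v' w = i then (1 : ℝ) else 0] at h3
      simp only [hcq] at h3
      refine Eq.trans (sum_congr rfl fun w _ => ?_) (h3.symm.trans (sum_congr rfl fun e _ => ?_))
      · unfold inC
        by_cases h4 : R v w <;> by_cases h5 : c v w = i <;> simp [h4, h5]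
      · by_cases h4 : e.1.1 = v <;> by_cases h5 : q e = i <;> simp [h4, h5]
    · simp only [cout]
  · intro t i hi
    refine le_trans (le_of_eq ?_) (le_trans (hq3 t i hi) (le_of_eq ?_))
    · congr 1
      refine sum_congr rfl fun v _ => ?_
      rw [cin]
      congr 2
      rw [← Finset.sum_boole, ct_eq]
      have h3 := key fun w v' => if v' = v then (if c w v' = i then (1 : ℝ) else 0) else 0
      rw [asum_snd R v fun w v' => if c w v' = i then (1 : ℝ) else 0] at h3
      simp only [hcq] at h3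
      refine Eq.trans (sum_congr rfl fun w _ => ?_) (h3.symm.trans (sum_congr rfl fun e _ => ?_))
      · unfold rv inC
        by_cases h4 : R w v <;> by_cases h5 : c w v = i <;> simp [h4, h5]
      · by_cases h4 : e.1.2 = v <;> by_cases h5 : q e = i <;> simp [h4, h5]
    · simp only [cin]

/-! ## Tests at a vertex -/

section V

variable {W : Type u} [Fintype W]

/-- sum of `g` over the out-arcs of `x` -/
noncomputable def os (R : W → W → Prop) (x : W) (g : W → ℝ) : ℝ := ∑ y, if R x y then g y else 0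

/-- reversed function -/
def sw {α : Type} (c : W → W → α) (v w : W) : α := c w v

theorem os_one (R : W → W → Prop) (x : W) : os R x (fun _ => 1) = ct R x := (ct_eq R x).symm

theorem os_nonneg {R : W → W → Prop} {x : W} {g : W → ℝ} (h : ∀ y, R x y → 0 ≤ g y) :
    0 ≤ os R x g := by
  refine sum_nonneg fun y _ => ?_
  split_ifs with h1
  · exact h y h1
  · exact le_rfl

theorem os_mono {R : W → W → Prop} {x : W} {g g' : W → ℝ} (h : ∀ y, R x y → g y ≤ g' y) :
    os R x g ≤ os R x g' := by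
  refine sum_le_sum fun y _ => ?_
  split_ifs with h1
  · exact h y h1
  · exact le_rfl

theorem os_congr {R : W → W → Prop} {x : W} {g g' : W → ℝ} (h : ∀ y, R x y → g y = g' y) :
    os R x g = os R x g' := by
  refine sum_congr rfl fun y _ => ?_
  split_ifs with h1
  · exact h y h1
  · rfl

theorem os_le_ct {R : W → W → Prop} {x : W} {g : W → ℝ} {M : ℝ} (h : ∀ y, R x y → g y ≤ M) :
    os R x g ≤ M * ct R x := by
  rw [ct_eq, mul_sum]
  refine sum_le_sum fun y _ => ?_
  split_ifs with h1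
  · rw [mul_one]; exact h y h1
  · rw [mul_zero]

/-- multiplicities of tests at vertices -/
def VF {κ : Type u} [Fintype κ] (F : SimpleGraph W) (xx : κ → W) (g : κ → W → ℝ) (d : ℕ) (A : ℝ) :
    Prop := ∀ v w, F.Adj v w → ((univ.filter fun t => xx t = v ∧ g t w ≠ 0).card : ℝ) ≤ (d : ℝ) ^ A

/-- Cells of a system. -/
structure CV {τ κ : Type u} (k : ℕ) (γ : ℝ) (d : ℕ) (R : W → W → Prop)
    (c : W → W → ℕ) (f : τ → W → ℝ) (xx : κ → W) (g : κ → W → ℝ) : Prop where
  lt : ∀ v w, c v w < 2 ^ k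
  fo : ∀ t i, i < 2 ^ k → |∑ v, f t v * (ct (inC R c i) v - ct R v / 2 ^ k)| ≤
    2 * Real.log d ^ 2 * (d : ℝ) ^ ((1 - γ) / 2) * Real.sqrt (∑ v, f t v ^ 2)
  fi : ∀ t i, i < 2 ^ k → |∑ v, f t v * (ct (inC (rv R) (sw c) i) v - ct (rv R) v / 2 ^ k)| ≤
    2 * Real.log d ^ 2 * (d : ℝ) ^ ((1 - γ) / 2) * Real.sqrt (∑ v, f t v ^ 2)
  go : ∀ t i, i < 2 ^ k → |os (inC R c i) (xx t) (g t) - os R (xx t) (g t) / 2 ^ k| ≤
    Real.log d ^ 2 * (d : ℝ) ^ (γ / 2) * Real.sqrt (os R (xx t) fun y => g t y ^ 2)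
  gi : ∀ t i, i < 2 ^ k →
    |os (inC (rv R) (sw c) i) (xx t) (g t) - os (rv R) (xx t) (g t) / 2 ^ k| ≤
    Real.log d ^ 2 * (d : ℝ) ^ (γ / 2) * Real.sqrt (os (rv R) (xx t) fun y => g t y ^ 2)

theorem CV.rev {τ κ : Type u} {k : ℕ} {γ : ℝ} {d : ℕ} {R : W → W → Prop}
    {c : W → W → ℕ} {f : τ → W → ℝ} {xx : κ → W} {g : κ → W → ℝ} (h : CV k γ d R c f xx g) :
    CV k γ d (rv R) (sw c) f xx g :=
  ⟨fun v w => h.lt w v, h.fi, h.fo, h.gi, h.go⟩

end V

/-- bound of the noise of a vertex test -/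
theorem noise_le {W : Type u} [Fintype W] (n : W → ℝ) (f : W → ℝ) (d : ℕ) (γ : ℝ) (hd : 1 ≤ d)
    (hγ1 : γ ≤ 1) (hn : ∀ v, n v ≤ d) :
    Real.sqrt (∑ v, f v ^ 2 * (n v / (d : ℝ) ^ γ + 1)) ≤
      2 * (d : ℝ) ^ ((1 - γ) / 2) * Real.sqrt (∑ v, f v ^ 2) := by
  have h1 : (1 : ℝ) ≤ d := by exact_mod_cast hd
  have hd0 : (0 : ℝ) < d := by linarith
  have h2 : ∑ v, f v ^ 2 * (n v / (d : ℝ) ^ γ + 1) ≤
      (2 * (d : ℝ) ^ ((1 - γ) / 2)) ^ 2 * ∑ v, f v ^ 2 := by
    rw [mul_sum]
    refine sum_le_sum fun v _ => ?_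
    rw [mul_comm]
    refine mul_le_mul_of_nonneg_right ?_ (sq_nonneg _)
    have h3 : (d : ℝ) ^ (1 - γ) = d / (d : ℝ) ^ γ := by
      rw [Real.rpow_sub hd0, Real.rpow_one]
    have h4 : ((d : ℝ) ^ ((1 - γ) / 2)) ^ 2 = (d : ℝ) ^ (1 - γ) := by
      rw [← Real.rpow_natCast, ← Real.rpow_mul hd0.le]
      congr 1
      push_cast
      ring
    have h5 : n v / (d : ℝ) ^ γ ≤ (d : ℝ) ^ (1 - γ) := by
      rw [h3]
      exact div_le_div_of_nonneg_right (hn v) (Real.rpow_nonneg hd0.le _)
    have h6 : (1 : ℝ) ≤ (d : ℝ) ^ (1 - γ) := Real.one_le_rpow h1 (by linarith)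
    rw [mul_pow, h4]
    linarith
  refine (Real.sqrt_le_sqrt h2).trans (le_of_eq ?_)
  rw [Real.sqrt_mul (sq_nonneg _), Real.sqrt_sq (by positivity)]

/-- Cells exist. -/
theorem cellV (hCELL : Stmt_CELL.{u}) (k : ℕ) (A γ : ℝ) (hA : 1 ≤ A) (hγ : 0 < γ)
    (hγ1 : γ ≤ 1 / 2) : ∃ d0 : ℕ, ∀ {W τ κ : Type u} [Fintype W] [Fintype τ] [Fintype κ]
    (F : SimpleGraph W) (R : W → W → Prop) (d : ℕ) (f : τ → W → ℝ) (xx : κ → W) (g : κ → W → ℝ),
    d0 ≤ d → (∀ v w, R v w → F.Adj v w) →
    (∀ v, ct R v ≤ d) → (∀ v, ct (rv R) v ≤ d) → Fam f d A → VF F xx g d A →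
    ∃ c : W → W → ℕ, CV k γ d R c f xx g := by
  obtain ⟨d0, h⟩ := cellG hCELL k (A + 1) γ (by linarith) hγ hγ1
  refine ⟨max d0 2, ?_⟩
  intro W τ κ _ _ _ F R d f xx g hd hRF h1 h2 hFf hVF
  have hd0 : d0 ≤ d := (le_max_left _ _).trans hd
  have hd2 : 2 ≤ d := (le_max_right _ _).trans hd
  have hdr : (2 : ℝ) ≤ d := by exact_mod_cast hd2
  have hdA : (d : ℝ) ^ A ≤ (d : ℝ) ^ (A + 1) :=
    Real.rpow_le_rpow_of_exponent_le (by linarith) (by linarith)
  have hdA2 : 2 * (d : ℝ) ^ A ≤ (d : ℝ) ^ (A + 1) := by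
    rw [Real.rpow_add (by linarith), Real.rpow_one, mul_comm]
    exact mul_le_mul_of_nonneg_left hdr (Real.rpow_nonneg (by linarith) _)
  have hdA1 : (d : ℝ) ≤ (d : ℝ) ^ (A + 1) := by
    calc (d : ℝ) = (d : ℝ) ^ (1 : ℝ) := (Real.rpow_one _).symm
      _ ≤ _ := Real.rpow_le_rpow_of_exponent_le (by linarith) (by linarith)
  have hFa : FamA R (Sum.elim (fun (t : κ) v w => if v = xx t then g t w else 0)
      (fun (t : κ) v w => if w = xx t then g t v else 0)) d (A + 1) := by
    refine ⟨fun t => ?_, fun v w hR => ?_⟩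
    · rcases t with t | t
      · refine le_trans ?_ ((h1 (xx t)).trans hdA1)
        unfold ct
        rw [Nat.cast_le]
        refine card_le_card_of_injOn (fun p => p.2) (fun p hp => ?_) (fun p hp q hq hpq => ?_)
        · simp only [coe_filter, mem_univ, true_and, Set.mem_setOf_eq, Sum.elim_inl, ne_eq,
            ite_eq_right_iff, Classical.not_imp] at hp ⊢
          rw [← hp.2.1]; exact hp.1
        · simp only [coe_filter, mem_univ, true_and, Set.mem_setOf_eq, Sum.elim_inl, ne_eq,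
            ite_eq_right_iff, Classical.not_imp] at hp hq
          exact Prod.ext (hp.2.1.trans hq.2.1.symm) hpq
      · refine le_trans ?_ ((h2 (xx t)).trans hdA1)
        unfold ct
        rw [Nat.cast_le]
        refine card_le_card_of_injOn (fun p => p.1) (fun p hp => ?_) (fun p hp q hq hpq => ?_)
        · simp only [coe_filter, mem_univ, true_and, Set.mem_setOf_eq, Sum.elim_inr, ne_eq,
            ite_eq_right_iff, Classical.not_imp] at hp ⊢
          show R p.1 (xx t)
          rw [← hp.2.1]; exact hp.1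
        · simp only [coe_filter, mem_univ, true_and, Set.mem_setOf_eq, Sum.elim_inr, ne_eq,
            ite_eq_right_iff, Classical.not_imp] at hp hq
          exact Prod.ext hpq (hp.2.1.trans hq.2.1.symm)
    · have hF := hRF v w hR
      have e1 := hVF v w hF
      have e2 := hVF w v hF.symm
      refine le_trans (le_of_eq ?_) ((add_le_add e1 e2).trans (by linarith))
      rw [← Finset.sum_boole, ← Finset.sum_boole, ← Finset.sum_boole, Fintype.sum_sum_type]
      refine congrArg₂ (· + ·) (sum_congr rfl fun t _ => ?_) (sum_congr rfl fun t _ => ?_)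
      · by_cases h3 : xx t = v
        · by_cases h4 : g t w = 0 <;> simp [h3, h4]
        · have h5 : v ≠ xx t := fun h => h3 h.symm
          simp [h3, h5]
      · by_cases h3 : xx t = w
        · by_cases h4 : g t v = 0 <;> simp [h3, h4]
        · have h5 : w ≠ xx t := fun h => h3 h.symm
          simp [h3, h5]
  obtain ⟨c, hc, ha, hfo, hfi⟩ := h (τ := κ ⊕ κ) R d
    (Sum.elim (fun t v w => if v = xx t then g t w else 0)
      (fun t v w => if w = xx t then g t v else 0)) f hd0 h1 h2 hFa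
    ⟨fun q => (hFf.sp q).trans hdA, fun v => (hFf.mu v).trans hdA⟩
  · refine ⟨c, hc, fun t i hi => ?_, fun t i hi => ?_, fun t i hi => ?_, fun t i hi => ?_⟩
    · refine (hfo t i hi).trans ?_
      have := noise_le (fun v => ct R v) (f t) d γ (by omega) (by linarith) h1
      calc _ ≤ Real.log d ^ 2 * (2 * (d : ℝ) ^ ((1 - γ) / 2) * Real.sqrt (∑ v, f t v ^ 2)) :=
            mul_le_mul_of_nonneg_left this (sq_nonneg _)
        _ = _ := by ring
    · refine (hfi t i hi).trans ?_
      have := noise_le (fun v => ct (rv R) v) (f t) d γ (by omega) (by linarith) h2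
      calc _ ≤ Real.log d ^ 2 * (2 * (d : ℝ) ^ ((1 - γ) / 2) * Real.sqrt (∑ v, f t v ^ 2)) :=
            mul_le_mul_of_nonneg_left this (sq_nonneg _)
        _ = _ := by ring
    · have := ha (Sum.inl t) i hi
      simp only [Sum.elim_inl] at this
      rw [asum_fst _ _ fun _ w => g t w, asum_fst _ _ fun _ w => g t w] at this
      rw [show (fun v w => (if v = xx t then g t w else 0) ^ 2) = fun v w =>
        if v = xx t then g t w ^ 2 else 0 from ?_, asum_fst _ _ fun _ w => g t w ^ 2] at this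
      · exact this
      · funext v w
        split_ifs <;> simp
    · have := ha (Sum.inr t) i hi
      simp only [Sum.elim_inr] at this
      rw [asum_snd _ _ fun v _ => g t v, asum_snd _ _ fun v _ => g t v] at this
      rw [show (fun v w => (if w = xx t then g t v else 0) ^ 2) = fun v w =>
        if w = xx t then g t v ^ 2 else 0 from ?_, asum_snd _ _ fun v _ => g t v ^ 2] at this
      · exact this
      · funext v w
        split_ifs <;> simp

end Pool.Agent.Work.MP_db9399_ts.helper39
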