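import Pool.Agent.Work.MP_db9399_ts_helper39.Noise

/-!
# MP_db9399, TSPLIT, OSYS, part 5: the cells of both systems (helper39)
-/

set_option autoImplicit false

namespace Pool.Agent.Work.MP_db9399_ts.helper39

open Finset Classical
open Pool.Agent.Work.MP_db9399_all (nb)
open Pool.Agent.Work.MP_db9399_ts

universe u

section tools

variable {V : Type u} [Fintype V]

theorem fam4 {τ1 τ2 τ3 τ4 : Type u} [Fintype τ1] [Fintype τ2] [Fintype τ3] [Fintype τ4]
    {f1 : τ1 → V → ℝ} {f2 : τ2 → V → ℝ} {f3 : τ3 → V → ℝ} {f4 : τ4 → V → ℝ} {d : ℕ} {A : ℝ}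
    (h1 : Fam f1 d A) (h2 : Fam f2 d A) (h3 : Fam f3 d A) (h4 : Fam f4 d A) (hd : 2 ≤ d) :
    Fam (Sum.elim f1 (Sum.elim f2 (Sum.elim f3 f4))) d (A + 3) := by
  have e1 := Fam.sum h3 h4 hd le_rfl
  have e2 := Fam.sum (Fam.mono h2 hd (by linarith : A ≤ A + 1)) e1 hd le_rfl
  have e3 := Fam.sum (Fam.mono h1 hd (by linarith : A ≤ A + 1 + 1)) e2 hd le_rfl
  exact Fam.mono e3 hd (by linarith)

theorem vf3 {κ1 κ2 κ3 : Type u} [Fintype κ1] [Fintype κ2] [Fintype κ3] {F : SimpleGraph V}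
    {x1 : κ1 → V} {x2 : κ2 → V} {x3 : κ3 → V} {g1 : κ1 → V → ℝ} {g2 : κ2 → V → ℝ}
    {g3 : κ3 → V → ℝ} {d : ℕ} {A : ℝ} (h1 : VF F x1 g1 d A) (h2 : VF F x2 g2 d A)
    (h3 : VF F x3 g3 d A) (hd : 2 ≤ d) :
    VF F (Sum.elim x1 (Sum.elim x2 x3)) (Sum.elim g1 (Sum.elim g2 g3)) d (A + 2) := by
  have e1 := VF.sum h2 h3 hd le_rfl
  have e2 := VF.sum (VF.mono h1 hd (by linarith : A ≤ A + 1)) e1 hd le_rfl
  exact VF.mono e2 hd (by linarith)

/-- tests for pairs `(x, S)`, `S` small -/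
theorem vf_sub {B : Type u} [Fintype B] (F : SimpleGraph V) (d K : ℕ) (Nb : V → Finset B)
    (hN : ∀ v, (Nb v).card ≤ d ^ 2) (hd : 2 ≤ d) (g : V × Finset B → V → ℝ)
    (hg : ∀ t y, g t y ≠ 0 → t.2 ⊆ Nb t.1 ∧ t.2.card ≤ K) :
    VF F (fun t : V × Finset B => t.1) g d (3 * K) := by
  intro v w _
  have h1 : ((univ.filter fun t : V × Finset B => t.1 = v ∧ g t w ≠ 0).card) ≤ d ^ (3 * K) := by
    calc _ ≤ ((Nb v).powerset.filter fun S => S.card ≤ K).card := by
          refine card_le_card_of_injOn (fun t => t.2) (fun t ht => ?_) (fun t ht s hs hts => ?_)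
          · simp only [coe_filter, mem_univ, true_and, Set.mem_ofPred_eq, mem_powerset] at ht ⊢
            have := hg t w ht.2
            rw [ht.1] at this
            exact this
          · simp only [coe_filter, mem_univ, true_and, Set.mem_ofPred_eq] at ht hs
            exact Prod.ext (ht.1.trans hs.1.symm) hts
      _ ≤ ((Nb v).card + 1) ^ K := card_small _ _
      _ ≤ (d ^ 3) ^ K := by
          refine Nat.pow_le_pow_left ?_ K
          have := hN v
          nlinarith [Nat.pow_le_pow_left hd 2]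
      _ = d ^ (3 * K) := by rw [pow_mul]
  have h2 : (((univ.filter fun t : V × Finset B => t.1 = v ∧ g t w ≠ 0).card : ℕ) : ℝ) ≤
      ((d ^ (3 * K) : ℕ) : ℝ) := by exact_mod_cast h1
  refine h2.trans (le_of_eq ?_)
  push_cast
  rw [← Real.rpow_natCast]
  push_cast
  rfl

end tools

section cells

variable {W B : Type u} [Fintype W] [Fintype B]

/-- symmetric cell -/
noncomputable def sC (R : W → W → Prop) (c : W → W → ℕ) (i : ℕ) (y w : W) : ℝ :=
  if inC R c i y w ∨ inC R c i w y then 1 else 0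

/-- The cells of both systems. -/
structure Cl {τ : Type u} (F : SimpleGraph W) (d k : ℕ) (σ : Fin 6 → ℝ) (bs fl : Fin 6 → Finset ℕ)
    (h : W → Prop) (f : τ → W → ℝ) (Lo : W → Finset W) (Nb : W → Finset B)
    (Lg : Finset B → Finset W) (K : ℕ) (R : Bool → W → W → Prop) (c : Bool → W → W → ℕ) :
    Prop where
  lt : ∀ s v w, c s v w < 2 ^ k
  out : Dn k d σ bs fl h f R c
  inn : Dn k d σ bs fl h f (fun s => rv (R s)) (fun s => sw (c s))
  f6 : ∀ i u w, i < 2 ^ k → u ≠ w →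
    ((nb F u ∩ nb F w).card : ℝ) / (4 * 4 ^ k) - (d : ℝ) ^ (6 / 10 : ℝ) ≤
    ns (inC (R true) (c true) i) u fun y => sC (R false) (c false) i y w
  f6' : ∀ i u, i < 2 ^ k → (∑ y ∈ nb F u, ((nb F y ∩ Lo u).card : ℝ)) / (4 * 4 ^ k) -
    (d : ℝ) ^ (17 / 10 : ℝ) ≤
    ns (inC (R true) (c true) i) u fun y => ∑ w ∈ Lo u, sC (R false) (c false) i y w
  f7 : ∀ i u Fs, i < 2 ^ k → Fs ⊆ Nb u → Fs.card ≤ K →
    ((nb F u ∩ Lg Fs).card : ℝ) / 2 ^ k - (d : ℝ) ^ (6 / 10 : ℝ) ≤
    ∑ s : Bool, ns (inC (R s) (c s) i) u fun y => if y ∈ Lg Fs then 1 else 0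

theorem sum_ns {F : SimpleGraph W} {d : ℕ} {Lo : W → Finset W} {R : Bool → W → W → Prop}
    (hS : Sy F d Lo R) (u : W) (g : W → ℝ) : ∑ s : Bool, ns (R s) u g = ∑ y ∈ nb F u, g y := by
  unfold ns nb
  rw [Finset.sum_filter, sum_comm]
  refine sum_congr rfl fun y _ => ?_
  rw [Fintype.sum_bool]
  by_cases h1 : F.Adj u y
  · rw [if_pos h1]
    by_cases h2 : R true u y ∨ R true y u
    · have h3 : ¬ (R false u y ∨ R false y u) := by
        rintro (h3 | h3)
        · rcases h2 with h2 | h2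
          · exact hS.dj _ _ h2 h3
          · exact hS.as _ _ _ _ h2 h3
        · rcases h2 with h2 | h2
          · exact hS.as _ _ _ _ h2 h3
          · exact hS.dj _ _ h2 h3
      rw [if_pos h2, if_neg h3, add_zero]
    · have h3 : R false u y ∨ R false y u := by
        obtain ⟨s, hs⟩ := hS.cov u y h1
        cases s
        · exact hs
        · exact absurd hs h2
      rw [if_neg h2, if_pos h3, zero_add]
  · have h2 : ∀ s, ¬ (R s u y ∨ R s y u) := by
      rintro s (h3 | h3)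
      · exact h1 (hS.sub _ _ _ h3)
      · exact h1 (hS.sub _ _ _ h3).symm
    rw [if_neg h1, if_neg (h2 true), if_neg (h2 false), add_zero]

theorem ct_le {F : SimpleGraph W} {d : ℕ} {Lo : W → Finset W} {R : Bool → W → W → Prop}
    (hS : Sy F d Lo R) (hF : ∀ v, (nb F v).card ≤ d) (s : Bool) (v : W) : ct (R s) v ≤ d := by
  unfold ct
  rw [Nat.cast_le]
  refine (card_le_card fun y hy => ?_).trans (hF v)
  simp only [nb, mem_filter, mem_univ, true_and] at hy ⊢
  exact hS.sub _ _ _ hy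

theorem ct_le' {F : SimpleGraph W} {d : ℕ} {Lo : W → Finset W} {R : Bool → W → W → Prop}
    (hS : Sy F d Lo R) (hF : ∀ v, (nb F v).card ≤ d) (s : Bool) (v : W) :
    ct (rv (R s)) v ≤ d := by
  unfold ct rv
  rw [Nat.cast_le]
  refine (card_le_card fun y hy => ?_).trans (hF v)
  simp only [nb, mem_filter, mem_univ, true_and] at hy ⊢
  exact (hS.sub _ _ _ hy).symm

theorem sC_sum (R : W → W → Prop) (c : W → W → ℕ) (i : ℕ) (y : W) (S : Finset W) :
    ∑ w ∈ S, sC R c i y w = ns (inC R c i) y fun w => if w ∈ S then 1 else 0 := by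
  unfold ns sC
  rw [← Finset.sum_filter_add_sum_filter_not (s := (univ : Finset W)) (fun w => w ∈ S)]
  rw [show (∑ w with ¬ w ∈ S, if inC R c i y w ∨ inC R c i w y then (if w ∈ S then (1 : ℝ) else 0)
    else 0) = 0 from ?_, add_zero]
  · rw [Finset.filter_mem_eq_inter, univ_inter]
    refine sum_congr rfl fun w hw => ?_
    simp only [if_pos hw]
  · refine sum_eq_zero fun w hw => ?_
    simp only [mem_filter, mem_univ, true_and] at hw
    simp only [if_neg hw, ite_self]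

set_option maxHeartbeats 8000000 in
/-- The cells of both systems exist. -/
theorem cl_ex (hCELL : Stmt_CELL.{u}) (k K : ℕ) (A C : ℝ) (hA : 0 < A) (hC : 0 < C) : ∃ d0 : ℕ,
    ∀ {W B τ : Type u} [Fintype W] [Fintype B] [Fintype τ] (F : SimpleGraph W) (d : ℕ)
      (σ : Fin 6 → ℝ) (bs fl : Fin 6 → Finset ℕ) (h : W → Prop) (f : τ → W → ℝ)
      (Lo : W → Finset W) (Nb : W → Finset B) (Lg : Finset B → Finset W)
      (R : Bool → W → W → Prop), d0 ≤ d → (∀ v, (nb F v).card ≤ d) → Sy F d Lo R →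
      (∀ x, h x → (d : ℝ) / 2 ≤ ((nb F x).card : ℝ)) → Cells k σ bs fl →
      (∀ j, 0 ≤ σ j ∧ σ j ≤ 1) → Fam f d A → (∀ q x, |f q x| ≤ C) →
      (∀ q, ∑ x, |f q x| ≤ C * d) → (∀ v, (Nb v).card ≤ d ^ 2) →
      ∃ c : Bool → W → W → ℕ, Cl F d k σ bs fl h f Lo Nb Lg K R c := by
  have hK0 : (0 : ℝ) ≤ 3 * K := by positivity
  obtain ⟨dA, hcA⟩ := cellV hCELL k (A + 3 * K + 20) (8 / 100) (by linarith) (by norm_num)
    (by norm_num)
  obtain ⟨dB, hcB⟩ := cellV hCELL k (A + 3 * K + 20) (4 / 100) (by linarith) (by norm_num)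
    (by norm_num)
  obtain ⟨dD, hDn⟩ := dn_of.{u} k C hC
  obtain ⟨b1, hb1⟩ := big 5 2 (54 / 100) (6 / 10) (by norm_num)
  obtain ⟨b2, hb2⟩ := big 8 2 (154 / 100) (17 / 10) (by norm_num)
  obtain ⟨b3, hb3⟩ := big 40 0 (505 / 1000) 1 (by norm_num)
  refine ⟨(dA + dB + dD + b1 + b2 + b3 + 6) + 2 ^ k, ?_⟩
  intro W B τ _ _ _ F d σ bs fl h f Lo Nb Lg R hd' hF hS hh hCl hσ hf hfC hf1 hNb
  have hd : dA + dB + dD + b1 + b2 + b3 + 6 ≤ d := (Nat.le_add_right _ _).trans hd'
  have hdk : 2 ^ k ≤ d := (Nat.le_add_left _ _).trans hd'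
  have hd2 : 2 ≤ d := by omega
  have hd6 : 6 ≤ d := by omega
  have hdr : (6 : ℝ) ≤ d := by exact_mod_cast hd6
  have hdp : (0 : ℝ) < d := by linarith
  have hct := ct_le hS hF
  have hct' := ct_le' hS hF
  have hasy : ∀ s v w, R s v w → ¬ R s w v := fun s v w h1 h2 => hS.as s s v w h1 h2
  have hlog : 1 ≤ Real.log d := by
    rw [← Real.log_exp 1]
    exact Real.log_le_log (Real.exp_pos _) (by linarith [Real.exp_one_lt_d9])
  have hlog2 : 1 ≤ Real.log d ^ 2 := one_le_pow₀ hlog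
  have hb3' : 40 * (d : ℝ) ^ (505 / 1000 : ℝ) ≤ d := by
    have := hb3 d (by omega)
    rw [Real.rpow_one, pow_zero, mul_one] at this
    exact this
  have hbig : ∀ s x, h x → (d : ℝ) / 10 ≤ ct (R s) x := by
    intro s x hx
    have h1 := (abs_le.1 (hS.o s x)).1
    have h2 := hh x hx
    linarith
  have hbig' : ∀ s x, h x → (d : ℝ) / 10 ≤ ct (rv (R s)) x := by
    intro s x hx
    have h1 := (abs_le.1 (hS.i s x)).1
    have h2 := hh x hx
    linarith
  -- system `false`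
  set f0 := Sum.elim (fun (x : W) (y : W) => if y = x then (1 : ℝ) else 0)
    (Sum.elim (fun (x : W) (y : W) => if R true y x ∧ h y then 1 / ct (R true) y else 0)
    (Sum.elim (fun (x : W) (y : W) => if R true x y ∧ h y then 1 / ct (rv (R true)) y else 0)
    f)) with hf0
  have hF0 : Fam f0 d (A + 1 + 3) := by
    refine fam4 ?_ ?_ ?_ ?_ hd2
    · exact Fam.mono (fam_delta d hd2) hd2 (by linarith)
    · refine Fam.mono (fam_near F d hF hd2 _ fun x y hne => ?_) hd2 (by linarith : (1 : ℝ) ≤ A + 1)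
      by_contra h1
      exact hne (if_neg fun h2 => h1 (hS.sub _ _ _ h2.1).symm)
    · refine Fam.mono (fam_near F d hF hd2 _ fun x y hne => ?_) hd2 (by linarith : (1 : ℝ) ≤ A + 1)
      by_contra h1
      exact hne (if_neg fun h2 => h1 (hS.sub _ _ _ h2.1))
    · exact Fam.mono hf hd2 (by linarith)
  set gs : W × Finset B → W → ℝ := fun t y =>
    if t.2 ⊆ Nb t.1 ∧ t.2.card ≤ K ∧ y ∈ Lg t.2 then 1 else 0 with hgs
  have hVs : VF F (fun t : W × Finset B => t.1) gs d (3 * K) := by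
    refine vf_sub F d K Nb hNb hd2 gs fun t y hne => ?_
    by_contra h1
    exact hne (if_neg fun h2 => h1 ⟨h2.1, h2.2.1⟩)
  set g0 := Sum.elim (fun (t : W × W) (y : W) => if R true t.2 y ∨ R true y t.2 then (1 : ℝ) else 0)
    (Sum.elim (fun (t : W × W) (w : W) => if F.Adj t.1 t.2 ∧ w ∈ Lo t.2 then (1 : ℝ) else 0)
    gs) with hg0
  set x0 : (W × W) ⊕ ((W × W) ⊕ (W × Finset B)) → W :=
    Sum.elim (fun t => t.1) (Sum.elim (fun t => t.1) fun t => t.1) with hx0
  have hG0 : VF F x0 g0 d (3 * K + 2 + 2) := by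
    refine vf3 ?_ ?_ ?_ hd2
    · refine VF.mono (vf_pair F d hF _ (fun x u y _ hne => ?_) hd2) hd2 (by linarith)
      by_contra h1
      refine hne (if_neg fun h2 => h1 (Or.inr ?_))
      rcases h2 with h2 | h2
      · exact (hS.sub _ _ _ h2).symm
      · exact hS.sub _ _ _ h2
    · refine VF.mono (vf_pair F d hF _ (fun x u y _ hne => ?_) hd2) hd2 (by linarith)
      by_contra h1
      exact hne (if_neg fun h2 => h1 (Or.inl h2.1))
    · exact VF.mono hVs hd2 (by linarith)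
  obtain ⟨c0, hc0⟩ := hcA F (R false) d f0 x0 g0 (by omega) (hS.sub false) (hct false)
    (hct' false) (Fam.mono hF0 hd2 (by linarith)) (VF.mono hG0 hd2 (by linarith))
  -- system `true`
  have hJ : Fintype.card (ULift.{u} (Fin 6)) ≤ d := by
    rw [Fintype.card_ulift, Fintype.card_fin]; exact hd6
  have hI : Fintype.card (ULift.{u} (Fin (2 ^ k))) ≤ d := by
    rw [Fintype.card_ulift, Fintype.card_fin]; exact hdk
  set f1 := Sum.elim (fun (x : W) (y : W) => if y = x then (1 : ℝ) else 0)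
    (Sum.elim (fun (t : W × ULift.{u} (Fin 6)) (y : W) =>
      if R false y t.1 ∧ c0 y t.1 ∈ fl t.2.down ∧ h y then 1 / ct (R false) y else 0)
    (Sum.elim (fun (t : W × ULift.{u} (Fin 6)) (y : W) =>
      if R false t.1 y ∧ c0 t.1 y ∈ fl t.2.down ∧ h y then 1 / ct (rv (R false)) y else 0)
    f)) with hf1'
  have hF1 : Fam f1 d (A + 2 + 3) := by
    refine fam4 ?_ ?_ ?_ ?_ hd2
    · exact Fam.mono (fam_delta d hd2) hd2 (by linarith)
    · refine Fam.mono (Fam.prod (A := 1) (fun i => fam_near F d hF hd2 _ fun x y hne => ?_) hd2 hJ)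
        hd2 (by linarith)
      by_contra h1
      exact hne (if_neg fun h2 => h1 (hS.sub _ _ _ h2.1).symm)
    · refine Fam.mono (Fam.prod (A := 1) (fun i => fam_near F d hF hd2 _ fun x y hne => ?_) hd2 hJ)
        hd2 (by linarith)
      by_contra h1
      exact hne (if_neg fun h2 => h1 (hS.sub _ _ _ h2.1))
    · exact Fam.mono hf hd2 (by linarith)
  set ga : (W × W) × ULift.{u} (Fin (2 ^ k)) → W → ℝ := fun t y =>
    sC (R false) c0 t.2.down y t.1.2 with hga
  set gb : W × ULift.{u} (Fin (2 ^ k)) → W → ℝ := fun t y =>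
    ∑ w ∈ Lo t.1, sC (R false) c0 t.2.down y w with hgb
  set gc : W × ULift.{u} (Fin 6) → W → ℝ := fun t y =>
    if h y then nzr k σ bs fl (R false) c0 t.2.down y / ct (R true) y else 0 with hgc
  set ge : W × ULift.{u} (Fin 6) → W → ℝ := fun t y =>
    if h y then nzr k σ bs fl (rv (R false)) (sw c0) t.2.down y / ct (rv (R true)) y else 0
    with hge
  set g1 := Sum.elim ga (Sum.elim gb (Sum.elim gs (Sum.elim gc ge))) with hg1
  set x1 : ((W × W) × ULift.{u} (Fin (2 ^ k))) ⊕ ((W × ULift.{u} (Fin (2 ^ k))) ⊕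
    ((W × Finset B) ⊕ ((W × ULift.{u} (Fin 6)) ⊕ (W × ULift.{u} (Fin 6))))) → W :=
    Sum.elim (fun t => t.1.1) (Sum.elim (fun t => t.1) (Sum.elim (fun t => t.1)
      (Sum.elim (fun t => t.1) fun t => t.1))) with hx1
  have hG1 : VF F x1 g1 d (3 * K + 3 + 2 + 2) := by
    refine vf3 ?_ ?_ (VF.mono (vf3 (A := 3 * K + 3) ?_ ?_ ?_ hd2) hd2 (by linarith)) hd2
    · refine VF.mono (VF.prod (A := 2) (fun i => vf_pair F d hF _ (fun x u y _ hne => ?_) hd2)
        hd2 hI) hd2 (by linarith)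
      by_contra h1
      refine hne (if_neg fun h2 => h1 (Or.inr ?_))
      rcases h2 with h2 | h2
      · exact hS.sub _ _ _ h2.1
      · exact (hS.sub _ _ _ h2.1).symm
    · exact VF.mono (VF.prod (A := 1) (fun i => vf_self F d _ hd2) hd2 hI) hd2 (by linarith)
    · exact VF.mono hVs hd2 (by linarith)
    · exact VF.mono (VF.prod (A := 1) (fun i => vf_self F d _ hd2) hd2 hJ) hd2 (by linarith)
    · exact VF.mono (VF.prod (A := 1) (fun i => vf_self F d _ hd2) hd2 hJ) hd2 (by linarith)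
  obtain ⟨c1, hc1⟩ := hcB F (R true) d f1 x1 g1 (by omega) (hS.sub true) (hct true)
    (hct' true) (Fam.mono hF1 hd2 (by linarith)) (VF.mono hG1 hd2 (by linarith))
  have hd1 : 1 ≤ d := by omega
  have h2k : (1 : ℝ) ≤ 2 ^ k := one_le_pow₀ (by norm_num)
  have h2kp : (0 : ℝ) < 2 ^ k := by positivity
  have h44 : (4 : ℝ) * 4 ^ k = 4 * (2 ^ k * 2 ^ k) := by
    rw [← mul_pow]; norm_num
  have p52 : (d : ℝ) ^ ((1 + 4 / 100) / 2 : ℝ) ≤ (d : ℝ) ^ (54 / 100 : ℝ) :=
    Real.rpow_le_rpow_of_exponent_le (by linarith) (by norm_num)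
  have p54 : (d : ℝ) ^ ((1 + 8 / 100) / 2 : ℝ) = (d : ℝ) ^ (54 / 100 : ℝ) := by
    congr 1; norm_num
  have p505 : (d : ℝ) ^ (505 / 1000 : ℝ) ≤ (d : ℝ) ^ (54 / 100 : ℝ) :=
    Real.rpow_le_rpow_of_exponent_le (by linarith) (by norm_num)
  set E := Real.log d ^ 2 * (d : ℝ) ^ (54 / 100 : ℝ) with hE
  have hE0 : 0 ≤ E := by positivity
  have hE1 : (d : ℝ) ^ (505 / 1000 : ℝ) ≤ E := by
    refine p505.trans ?_
    rw [hE]
    exact le_mul_of_one_le_left (by positivity) hlog2
  have hB1 : 5 * E ≤ (d : ℝ) ^ (6 / 10 : ℝ) := by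
    have := hb1 d (by omega)
    rw [hE]; linarith
  have hB2 : 8 * (d * E) ≤ (d : ℝ) ^ (17 / 10 : ℝ) := by
    have h1 := hb2 d (by omega)
    have h2 : (d : ℝ) ^ (154 / 100 : ℝ) = d * (d : ℝ) ^ (54 / 100 : ℝ) := by
      rw [show (154 / 100 : ℝ) = 1 + 54 / 100 by norm_num, Real.rpow_add hdp, Real.rpow_one]
    rw [h2] at h1
    rw [hE]
    calc _ = 8 * Real.log d ^ 2 * (d * (d : ℝ) ^ (54 / 100 : ℝ)) := by ring
      _ ≤ _ := h1
  -- one test of the system `false`, `true`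
  have T0 : ∀ t i, i < 2 ^ k → (∀ y, |g0 t y| ≤ 1) →
      |ns (inC (R false) c0 i) (x0 t) (g0 t) - ns (R false) (x0 t) (g0 t) / 2 ^ k| ≤ 2 * E := by
    intro t i hi hM
    refine (cv_ns hc0 (hasy false) hd1 (hct false) (hct' false) t i hi 1 hM).trans ?_
    rw [p54, hE]; linarith
  have T1 : ∀ t i M, i < 2 ^ k → (∀ y, |g1 t y| ≤ M) →
      |ns (inC (R true) c1 i) (x1 t) (g1 t) - ns (R true) (x1 t) (g1 t) / 2 ^ k| ≤
        2 * E * M := by
    intro t i M hi hM
    refine (cv_ns hc1 (hasy true) hd1 (hct true) (hct' true) t i hi M hM).trans ?_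
    have hM0 : 0 ≤ M := (abs_nonneg _).trans (hM (x1 t))
    refine mul_le_mul_of_nonneg_right ?_ hM0
    rw [hE]
    have := mul_le_mul_of_nonneg_left p52 (by positivity : 0 ≤ 2 * Real.log d ^ 2)
    linarith
  have hsC : ∀ (R' : W → W → Prop) (c' : W → W → ℕ) i y w, |sC R' c' i y w| ≤ 1 := by
    intro R' c' i y w
    unfold sC
    split_ifs <;> simp
  refine ⟨fun s => cond s c1 c0, ?_⟩
  refine ⟨?_, ?_, ?_, ?_, ?_, ?_⟩
  · intro s v w
    cases s
    · exact hc0.lt v w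
    · exact hc1.lt v w
  · refine hDn d σ bs fl h f R (fun s => cond s c1 c0) f0 x0 g0 f1 x1 g1 (by omega) hCl hσ hc0 hc1
      hct' hbig hfC hf1 ?_ ?_ ?_ ?_ ?_ ?_ ?_
    · exact fun x => ⟨Sum.inl x, rfl⟩
    · exact fun x => ⟨Sum.inl x, rfl⟩
    · exact fun x => ⟨Sum.inr (Sum.inl x), rfl⟩
    · exact fun x j => ⟨Sum.inr (Sum.inl (x, ULift.up j)), rfl⟩
    · exact fun q => ⟨Sum.inr (Sum.inr (Sum.inr q)), rfl⟩
    · exact fun q => ⟨Sum.inr (Sum.inr (Sum.inr q)), rfl⟩
    · exact fun x j => ⟨Sum.inr (Sum.inr (Sum.inr (Sum.inl (x, ULift.up j)))), rfl, rfl⟩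
  · refine hDn d σ bs fl h f (fun s => rv (R s)) (fun s => sw (cond s c1 c0)) f0 x0 g0 f1 x1 g1
      (by omega) hCl hσ hc0.rev hc1.rev hct hbig' hfC hf1 ?_ ?_ ?_ ?_ ?_ ?_ ?_
    · exact fun x => ⟨Sum.inl x, rfl⟩
    · exact fun x => ⟨Sum.inl x, rfl⟩
    · exact fun x => ⟨Sum.inr (Sum.inr (Sum.inl x)), rfl⟩
    · exact fun x j => ⟨Sum.inr (Sum.inr (Sum.inl (x, ULift.up j))), rfl⟩
    · exact fun q => ⟨Sum.inr (Sum.inr (Sum.inr q)), rfl⟩
    · exact fun q => ⟨Sum.inr (Sum.inr (Sum.inr q)), rfl⟩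
    · exact fun x j => ⟨Sum.inr (Sum.inr (Sum.inr (Sum.inr (x, ULift.up j)))), rfl, rfl⟩
  · intro i u w hi huw
    show _ ≤ ns (inC (R true) c1 i) u fun y => sC (R false) c0 i y w
    have e1 := T0 (Sum.inl (w, u)) i hi (by
      intro y
      simp only [hg0, Sum.elim_inl]
      split_ifs <;> simp)
    simp only [hg0, hx0, Sum.elim_inl] at e1
    have e2 := T1 (Sum.inl ((u, w), ULift.up ⟨i, hi⟩)) i 1 hi (fun y => hsC _ _ _ _ _)
    simp only [hg1, hx1, Sum.elim_inl, hga] at e2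
    have e3 := hS.cd u w huw
    have e4 : ns (R true) u (fun y => sC (R false) c0 i y w) =
        ns (inC (R false) c0 i) w (fun y => if R true u y ∨ R true y u then 1 else 0) :=
      ns_swap (R true) (inC (R false) c0 i) u w
    rw [e4] at e2
    set P := ns (R false) w (fun y => if R true u y ∨ R true y u then 1 else 0) with hP
    set P1 := ns (inC (R false) c0 i) w (fun y => if R true u y ∨ R true y u then 1 else 0)
      with hP1
    have f1 := (abs_le.1 e1).1
    have f2 := (abs_le.1 e2).1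
    have f3 := (abs_le.1 e3).1
    set N := ((nb F u ∩ nb F w).card : ℝ) with hN
    have f4 : N / 4 / 2 ^ k - (d : ℝ) ^ (505 / 1000 : ℝ) ≤ P / 2 ^ k := by
      have g1 : (N / 4 - (d : ℝ) ^ (505 / 1000 : ℝ)) / 2 ^ k ≤ P / 2 ^ k :=
        div_le_div_of_nonneg_right (by linarith) h2kp.le
      have g2 : (d : ℝ) ^ (505 / 1000 : ℝ) / 2 ^ k ≤ (d : ℝ) ^ (505 / 1000 : ℝ) :=
        div_le_self (by positivity) h2k
      rw [sub_div] at g1
      linarith
    have f5 : N / 4 / 2 ^ k / 2 ^ k - 3 * E ≤ P1 / 2 ^ k := by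
      have g1 : (N / 4 / 2 ^ k - 3 * E) / 2 ^ k ≤ P1 / 2 ^ k :=
        div_le_div_of_nonneg_right (by linarith) h2kp.le
      have g2 : 3 * E / 2 ^ k ≤ 3 * E := div_le_self (by positivity) h2k
      rw [sub_div] at g1
      linarith
    have f6 : N / (4 * 4 ^ k) = N / 4 / 2 ^ k / 2 ^ k := by
      rw [h44]; field_simp
    rw [f6]
    linarith
  · intro i u hi
    show _ ≤ ns (inC (R true) c1 i) u fun y => ∑ w ∈ Lo u, sC (R false) c0 i y w
    set m : W → ℝ := fun y => ∑ w ∈ Lo u, sC (R false) c0 i y w with hm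
    have hm1 : ∀ y, |m y| ≤ d := by
      intro y
      have g1 : 0 ≤ m y := sum_nonneg fun w _ => by unfold sC; split_ifs <;> simp
      rw [abs_of_nonneg g1]
      calc m y ≤ ∑ w ∈ nb F y, (1 : ℝ) := by
            simp only [hm]
            rw [← Finset.sum_filter_add_sum_filter_not (s := Lo u) (fun w => w ∈ nb F y)]
            rw [show (∑ w ∈ Lo u with ¬ w ∈ nb F y, sC (R false) c0 i y w) = 0 from ?_, add_zero]
            · calc _ ≤ ∑ w ∈ Lo u with w ∈ nb F y, (1 : ℝ) :=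
                    sum_le_sum fun w _ => (le_abs_self _).trans (hsC _ _ _ _ _)
                _ ≤ _ := sum_le_sum_of_subset_of_nonneg (fun w hw => (mem_filter.1 hw).2)
                  fun _ _ _ => zero_le_one
            · refine sum_eq_zero fun w hw => ?_
              have h1 := (mem_filter.1 hw).2
              unfold sC
              rw [if_neg]
              intro h2
              apply h1
              simp only [nb, mem_filter, mem_univ, true_and]
              rcases h2 with h2 | h2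
              · exact hS.sub _ _ _ h2.1
              · exact (hS.sub _ _ _ h2.1).symm
        _ = ((nb F y).card : ℝ) := by rw [sum_const, nsmul_eq_mul, mul_one]
        _ ≤ d := by exact_mod_cast hF y
    have e2 := T1 (Sum.inr (Sum.inl (u, ULift.up ⟨i, hi⟩))) i d hi hm1
    simp only [hg1, hx1, Sum.elim_inl, Sum.elim_inr, hgb] at e2
    have f2 := (abs_le.1 e2).1
    have e1 : ∀ y, (R true u y ∨ R true y u) →
        ns (R false) y (fun w => if w ∈ Lo u then 1 else 0) / 2 ^ k - 2 * E ≤ m y := by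
      intro y hy
      have hyu : F.Adj y u := by
        rcases hy with hy | hy
        · exact (hS.sub _ _ _ hy).symm
        · exact hS.sub _ _ _ hy
      have g1 := T0 (Sum.inr (Sum.inl (y, u))) i hi (by
        intro w
        simp only [hg0, Sum.elim_inl, Sum.elim_inr]
        split_ifs <;> simp)
      simp only [hg0, hx0, Sum.elim_inl, Sum.elim_inr, hyu, true_and] at g1
      have g2 := (abs_le.1 g1).1
      simp only [hm]
      rw [sC_sum]
      linarith
    have e3 : ns (R true) u (fun y => ns (R false) y (fun w => if w ∈ Lo u then 1 else 0)) / 2 ^ k -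
        2 * E * (2 * d) ≤ ns (R true) u m := by
      have g1 := ns_mono (R := R true) (x := u) e1
      refine le_trans ?_ g1
      have g2 : ns (R true) u (fun y => ns (R false) y (fun w => if w ∈ Lo u then 1 else 0) /
          2 ^ k - 2 * E) = ns (R true) u (fun y => ns (R false) y
          (fun w => if w ∈ Lo u then 1 else 0)) / 2 ^ k - 2 * E * ns (R true) u (fun _ => 1) := by
        unfold ns
        rw [sum_div, mul_sum, ← sum_sub_distrib]
        refine sum_congr rfl fun y _ => ?_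
        split_ifs <;> ring
      rw [g2]
      have g3 : ns (R true) u (fun _ => 1) ≤ 2 * d := by
        rw [ns_eq (hasy true), os_one, os_one]
        have := hct true u
        have := hct' true u
        linarith
      have g4 := mul_le_mul_of_nonneg_left g3 (by positivity : 0 ≤ 2 * E)
      linarith
    have e4 := hS.lo u
    set S := ∑ y ∈ nb F u, ((nb F y ∩ Lo u).card : ℝ) with hSS
    set Q := ns (R true) u (fun y => ns (R false) y (fun w => if w ∈ Lo u then 1 else 0)) with hQ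
    have hdE : (d : ℝ) * (d : ℝ) ^ (505 / 1000 : ℝ) ≤ d * E :=
      mul_le_mul_of_nonneg_left hE1 hdp.le
    have hdE0 : 0 ≤ d * E := by positivity
    have f4 : S / 4 / 2 ^ k - 2 * (d * E) ≤ Q / 2 ^ k := by
      have g1 : (S / 4 - 2 * (d * E)) / 2 ^ k ≤ Q / 2 ^ k :=
        div_le_div_of_nonneg_right (by linarith) h2kp.le
      have g2 : 2 * (d * E) / 2 ^ k ≤ 2 * (d * E) := div_le_self (by positivity) h2k
      rw [sub_div] at g1
      linarith
    have f5 : S / 4 / 2 ^ k / 2 ^ k - 6 * (d * E) ≤ ns (R true) u m / 2 ^ k := by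
      have g1 : (S / 4 / 2 ^ k - 6 * (d * E)) / 2 ^ k ≤ ns (R true) u m / 2 ^ k :=
        div_le_div_of_nonneg_right (by linarith) h2kp.le
      have g2 : 6 * (d * E) / 2 ^ k ≤ 6 * (d * E) := div_le_self (by positivity) h2k
      rw [sub_div] at g1
      linarith
    have f6 : S / (4 * 4 ^ k) = S / 4 / 2 ^ k / 2 ^ k := by
      rw [h44]; field_simp
    rw [f6]
    linarith
  · intro i u Fs hi hFs hFK
    have e1 := T0 (Sum.inr (Sum.inr (u, Fs))) i hi (by
      intro w
      simp only [hg0, Sum.elim_inr, hgs]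
      split_ifs <;> simp)
    have e2 := T1 (Sum.inr (Sum.inr (Sum.inl (u, Fs)))) i 1 hi (by
      intro w
      simp only [hg1, Sum.elim_inl, Sum.elim_inr, hgs]
      split_ifs <;> simp)
    simp only [hg0, hx0, Sum.elim_inr, hgs, hFs, hFK, true_and] at e1
    simp only [hg1, hx1, Sum.elim_inl, Sum.elim_inr, hgs, hFs, hFK, true_and] at e2
    have f1 := (abs_le.1 e1).1
    have f2 := (abs_le.1 e2).1
    rw [Fintype.sum_bool]
    show _ ≤ ns (inC (R true) c1 i) u (fun y => if y ∈ Lg Fs then 1 else 0) +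
      ns (inC (R false) c0 i) u (fun y => if y ∈ Lg Fs then 1 else 0)
    have e3 := sum_ns hS u fun y => if y ∈ Lg Fs then 1 else 0
    rw [Fintype.sum_bool, card_nb_inter] at e3
    rw [← e3, add_div]
    linarith

end cells

end Pool.Agent.Work.MP_db9399_ts.helper39
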