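import Pool.Agent.Work.MP_db9399_ts_helper39.Sys

/-!
# MP_db9399, TSPLIT, OSYS, part 4: noises (helper39)
-/

set_option autoImplicit false

namespace Pool.Agent.Work.MP_db9399_ts.helper39

open Finset Classical
open Pool.Agent.Work.MP_db9399_all (nb)
open Pool.Agent.Work.MP_db9399_ts

universe u

section noise

variable {W : Type u} [Fintype W]

/-- deviation of a cell -/
noncomputable def dv (k : ℕ) (R : W → W → Prop) (c : W → W → ℕ) (i : ℕ) (y : W) : ℝ :=
  ct (inC R c i) y - ct R y / 2 ^ k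

/-- the linear functional of the class `j` -/
noncomputable def nzf (k : ℕ) (σ : Fin 6 → ℝ) (bs fl : Fin 6 → Finset ℕ) (j : Fin 6) (D : ℕ → ℝ) :
    ℝ := ∑ i ∈ bs j, D i + wc k σ bs j * ∑ i ∈ fl j, D i

/-- noise of the class `j` -/
noncomputable def nzr (k : ℕ) (σ : Fin 6 → ℝ) (bs fl : Fin 6 → Finset ℕ) (R : W → W → Prop)
    (c : W → W → ℕ) (j : Fin 6) (y : W) : ℝ := nzf k σ bs fl j fun i => dv k R c i y

theorem nzf_le {k : ℕ} {σ : Fin 6 → ℝ} {bs fl : Fin 6 → Finset ℕ} (hC : Cells k σ bs fl)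
    (hσ : ∀ j, 0 ≤ σ j ∧ σ j ≤ 1) {j : Fin 6} (hj : j ≠ 5) {D : ℕ → ℝ} {M : ℝ} (hM : 0 ≤ M)
    (h : ∀ i, i < 2 ^ k → |D i| ≤ M) : |nzf k σ bs fl j D| ≤ 2 ^ k * M := by
  have h1 : |∑ i ∈ bs j, D i| ≤ (bs j).card * M := by
    refine (abs_sum_le_sum_abs _ _).trans ?_
    rw [← nsmul_eq_mul, ← sum_const]
    exact sum_le_sum fun i hi => h i (mem_range.1 (hC.bsr j hi))
  have h2 : |∑ i ∈ fl j, D i| ≤ 3 * M := by
    refine (abs_sum_le_sum_abs _ _).trans ?_
    have h3 : ∑ i ∈ fl j, |D i| ≤ ∑ _i ∈ fl j, M :=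
      sum_le_sum fun i hi => h i (mem_range.1 (hC.flr j hi))
    rw [sum_const, hC.f3 j hj, nsmul_eq_mul] at h3
    exact_mod_cast h3
  have h3 := hC.w j hj
  have hw : 0 ≤ wc k σ bs j := by
    unfold wc
    apply div_nonneg _ (by norm_num)
    linarith [h3.1]
  have h4 : |wc k σ bs j * ∑ i ∈ fl j, D i| ≤ (σ j * 2 ^ k - (bs j).card) * M := by
    rw [abs_mul, abs_of_nonneg hw]
    calc _ ≤ wc k σ bs j * (3 * M) := mul_le_mul_of_nonneg_left h2 hw
      _ = _ := by unfold wc; ring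
  have h5 : σ j * 2 ^ k * M ≤ 2 ^ k * M := by
    refine mul_le_mul_of_nonneg_right ?_ hM
    calc σ j * 2 ^ k ≤ 1 * 2 ^ k := mul_le_mul_of_nonneg_right (hσ j).2 (by positivity)
      _ = 2 ^ k := one_mul _
  unfold nzf
  calc _ ≤ _ := abs_add_le _ _
    _ ≤ (bs j).card * M + (σ j * 2 ^ k - (bs j).card) * M := add_le_add h1 h4
    _ = σ j * 2 ^ k * M := by ring
    _ ≤ _ := h5

/-- a test of the noises -/
theorem nzr_test {k : ℕ} {σ : Fin 6 → ℝ} {bs fl : Fin 6 → Finset ℕ} (R : W → W → Prop)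
    (c : W → W → ℕ) (j : Fin 6) (g : W → ℝ) :
    ∑ y, g y * nzr k σ bs fl R c j y = nzf k σ bs fl j fun i => ∑ y, g y * dv k R c i y := by
  unfold nzr nzf
  calc _ = ∑ y, (g y * ∑ i ∈ bs j, dv k R c i y +
        wc k σ bs j * (g y * ∑ i ∈ fl j, dv k R c i y)) := by
        refine sum_congr rfl fun y _ => ?_
        ring
    _ = _ := by
        rw [sum_add_distrib, ← mul_sum, sum_comm (s := bs j), sum_comm (s := fl j)]
        simp only [mul_sum]

/-- noise test from the cells -/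
theorem cv_nz {τ κ : Type u} {k : ℕ} {γ : ℝ} {d : ℕ} {R : W → W → Prop}
    {c : W → W → ℕ} {f : τ → W → ℝ} {xx : κ → W} {g : κ → W → ℝ} (h : CV k γ d R c f xx g)
    {σ : Fin 6 → ℝ} {bs fl : Fin 6 → Finset ℕ} (hC : Cells k σ bs fl)
    (hσ : ∀ j, 0 ≤ σ j ∧ σ j ≤ 1) {j : Fin 6} (hj : j ≠ 5) (t : τ) :
    |∑ y, f t y * nzr k σ bs fl R c j y| ≤
      2 ^ k * (2 * Real.log d ^ 2 * (d : ℝ) ^ ((1 - γ) / 2) * Real.sqrt (∑ v, f t v ^ 2)) := by
  rw [nzr_test]
  exact nzf_le hC hσ hj (by positivity) fun i hi => h.fo t i hi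

theorem sum_delta (x : W) (n : W → ℝ) : ∑ y, (if y = x then (1 : ℝ) else 0) * n y = n x := by
  rw [sum_eq_single x]
  · simp
  · intro y _ hy; simp [hy]
  · intro h; exact absurd (mem_univ x) h

theorem sum_delta_sq (x : W) : ∑ y, (if y = x then (1 : ℝ) else 0) ^ 2 = 1 := by
  rw [sum_eq_single x]
  · simp
  · intro y _ hy; simp [hy]
  · intro h; exact absurd (mem_univ x) h

/-- the bounds of one direction -/
structure Dn {τ : Type u} (k d : ℕ) (σ : Fin 6 → ℝ) (bs fl : Fin 6 → Finset ℕ) (h : W → Prop)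
    (f : τ → W → ℝ) (R : Bool → W → W → Prop) (c : Bool → W → W → ℕ) : Prop where
  dv : ∀ s i x, i < 2 ^ k → 2 ^ k * |dv k (R s) (c s) i x| ≤ (d : ℝ) ^ (485 / 1000 : ℝ)
  av : ∀ s x j, j ≠ 5 → |∑ y, if R s y x ∧ c s y x ∈ fl j ∧ h y then
    nzr k σ bs fl (R (!s)) (c (!s)) j y / ct (R s) y else 0| ≤ (d : ℝ) ^ (-(1 / 100) : ℝ)
  ext : ∀ s q j, j ≠ 5 → |∑ x, f q x * nzr k σ bs fl (R s) (c s) j x| ≤
    (d : ℝ) ^ (985 / 1000 : ℝ)

theorem wt_sq (R : W → W → Prop) (Q : W → Prop) (h : W → Prop) (x : W) (d : ℕ) (hd : 1 ≤ d)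
    (w : W → ℝ) (M : ℝ) (hM : 0 ≤ M) (hw : ∀ y, h y → |w y| ≤ M / d)
    (hR : ct (rv R) x ≤ d) :
    Real.sqrt (∑ y, (if R y x ∧ Q y ∧ h y then w y else 0) ^ 2) ≤
      M * (d : ℝ) ^ (-(1 / 2) : ℝ) := by
  have hd0 : (0 : ℝ) < d := by exact_mod_cast hd
  have h1 : ∑ y, (if R y x ∧ Q y ∧ h y then w y else 0) ^ 2 ≤ (M / d) ^ 2 * ct (rv R) x := by
    rw [ct_eq, mul_sum]
    refine sum_le_sum fun y _ => ?_
    unfold rv
    by_cases h2 : R y x
    · rw [if_pos h2, mul_one]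
      by_cases h3 : Q y ∧ h y
      · rw [if_pos ⟨h2, h3⟩, ← sq_abs]
        exact pow_le_pow_left₀ (abs_nonneg _) (hw y h3.2) 2
      · rw [if_neg (fun h4 => h3 h4.2), zero_pow two_ne_zero]
        positivity
    · rw [if_neg h2, if_neg (fun h4 => h2 h4.1)]
      simp
  have h2 : (M / d) ^ 2 * ct (rv R) x ≤ (M * (d : ℝ) ^ (-(1 / 2) : ℝ)) ^ 2 := by
    have h3 : ((d : ℝ) ^ (-(1 / 2) : ℝ)) ^ 2 = (d : ℝ)⁻¹ := by
      rw [← Real.rpow_natCast, ← Real.rpow_mul hd0.le, ← Real.rpow_neg_one]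
      congr 1
      norm_num
    rw [mul_pow, h3]
    calc (M / d) ^ 2 * ct (rv R) x ≤ (M / d) ^ 2 * d := mul_le_mul_of_nonneg_left hR (sq_nonneg _)
      _ = _ := by field_simp
  refine (Real.sqrt_le_sqrt (h1.trans h2)).trans (le_of_eq ?_)
  rw [Real.sqrt_sq (by positivity)]

theorem cv_dv {τ κ : Type u} {k : ℕ} {γ : ℝ} {d : ℕ} {R : W → W → Prop}
    {c : W → W → ℕ} {f : τ → W → ℝ} {xx : κ → W} {g : κ → W → ℝ} (h : CV k γ d R c f xx g)
    (x : W) (hx : ∃ t, f t = fun y => if y = x then 1 else 0) (i : ℕ) (hi : i < 2 ^ k) :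
    |dv k R c i x| ≤ 2 * Real.log d ^ 2 * (d : ℝ) ^ ((1 - γ) / 2) := by
  obtain ⟨t, ht⟩ := hx
  have h1 := h.fo t i hi
  rw [ht] at h1
  rw [sum_delta x fun v => ct (inC R c i) v - ct R v / 2 ^ k, sum_delta_sq, Real.sqrt_one,
    mul_one] at h1
  exact h1

/-- The bounds of one direction from the cells. -/
theorem dn_of (k : ℕ) (C : ℝ) (hC0 : 0 < C) : ∃ d0 : ℕ, ∀ {W τ τ0 τ1 κ0 κ1 : Type u} [Fintype W]
    (d : ℕ) (σ : Fin 6 → ℝ) (bs fl : Fin 6 → Finset ℕ) (h : W → Prop) (f : τ → W → ℝ)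
    (R : Bool → W → W → Prop) (c : Bool → W → W → ℕ) (f0 : τ0 → W → ℝ) (xx0 : κ0 → W)
    (g0 : κ0 → W → ℝ) (f1 : τ1 → W → ℝ) (xx1 : κ1 → W) (g1 : κ1 → W → ℝ), d0 ≤ d →
    Cells k σ bs fl → (∀ j, 0 ≤ σ j ∧ σ j ≤ 1) →
    CV k (8 / 100) d (R false) (c false) f0 xx0 g0 → CV k (4 / 100) d (R true) (c true) f1 xx1 g1 →
    (∀ s x, ct (rv (R s)) x ≤ d) → (∀ s x, h x → (d : ℝ) / 10 ≤ ct (R s) x) →
    (∀ q x, |f q x| ≤ C) → (∀ q, ∑ x, |f q x| ≤ C * d) →
    (∀ x, ∃ t, f0 t = fun y => if y = x then 1 else 0) →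
    (∀ x, ∃ t, f1 t = fun y => if y = x then 1 else 0) →
    (∀ x, ∃ t, f0 t = fun y => if R true y x ∧ h y then 1 / ct (R true) y else 0) →
    (∀ x j, ∃ t, f1 t = fun y => if R false y x ∧ c false y x ∈ fl j ∧ h y then
      1 / ct (R false) y else 0) →
    (∀ q, ∃ t, f0 t = f q) → (∀ q, ∃ t, f1 t = f q) →
    (∀ x j, ∃ t, xx1 t = x ∧ g1 t = fun y => if h y then
      nzr k σ bs fl (R false) (c false) j y / ct (R true) y else 0) →
    Dn k d σ bs fl h f R c := by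
  obtain ⟨b1, hb1⟩ := big (2 ^ k * 2) 2 (48 / 100) (485 / 1000) (by norm_num)
  obtain ⟨b2, hb2⟩ := big (20 * 2 ^ k) 2 (-(2 / 100)) (-(1 / 100)) (by norm_num)
  obtain ⟨b3, hb3⟩ := big (120 * 2 ^ k) 4 (-(2 / 100)) (-(1 / 100)) (by norm_num)
  obtain ⟨b4, hb4⟩ := big (2 ^ k * 2 * C) 2 (98 / 100) (985 / 1000) (by norm_num)
  refine ⟨b1 + b2 + b3 + b4 + 3, ?_⟩
  intro W τ τ0 τ1 κ0 κ1 _ d σ bs fl h f R c f0 xx0 g0 f1 xx1 g1 hd hCl hσ hC0' hC1 hin hbig hfC hf1
    hδ0 hδ1 hw0 hw1 hq0 hq1 hg1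
  have hd3 : 3 ≤ d := by omega
  have hdr : (3 : ℝ) ≤ d := by exact_mod_cast hd3
  have hdp : (0 : ℝ) < d := by linarith
  have hlog : 1 ≤ Real.log d := by
    rw [← Real.log_exp 1]
    exact Real.log_le_log (Real.exp_pos _) (by linarith [Real.exp_one_lt_d9])
  have B1 := hb1 d (by omega)
  have B2 := hb2 d (by omega)
  have B3 := hb3 d (by omega)
  have B4 := hb4 d (by omega)
  have hL0 : 0 ≤ Real.log d ^ 2 := sq_nonneg _
  -- exponents
  have p46 : (d : ℝ) ^ ((1 - 8 / 100) / 2 : ℝ) ≤ (d : ℝ) ^ (48 / 100 : ℝ) :=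
    Real.rpow_le_rpow_of_exponent_le (by linarith) (by norm_num)
  have p48 : (d : ℝ) ^ ((1 - 4 / 100) / 2 : ℝ) = (d : ℝ) ^ (48 / 100 : ℝ) := by
    congr 1; norm_num
  have p0 : ∀ a : ℝ, 0 ≤ (d : ℝ) ^ a := fun a => Real.rpow_nonneg hdp.le a
  -- one cell
  have dvb : ∀ s i x, i < 2 ^ k → |dv k (R s) (c s) i x| ≤
      2 * Real.log d ^ 2 * (d : ℝ) ^ (48 / 100 : ℝ) := by
    intro s i x hi
    cases s
    · exact (cv_dv hC0' x (hδ0 x) i hi).trans
        (mul_le_mul_of_nonneg_left p46 (by positivity))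
    · exact (cv_dv hC1 x (hδ1 x) i hi).trans (le_of_eq (by rw [p48]))
  have hwt : ∀ s y, h y → |1 / ct (R s) y| ≤ 10 / d := by
    intro s y hy
    have h1 := hbig s y hy
    have h2 : 0 < ct (R s) y := lt_of_lt_of_le (by positivity) h1
    rw [abs_of_pos (by positivity), div_le_div_iff₀ h2 hdp]
    linarith
  have e50 : (d : ℝ) ^ (48 / 100 : ℝ) * (d : ℝ) ^ (-(1 / 2) : ℝ) = (d : ℝ) ^ (-(2 / 100) : ℝ) := by
    rw [← Real.rpow_add hdp]; norm_num
  refine ⟨?_, ?_, ?_⟩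
  · intro s i x hi
    calc 2 ^ k * |dv k (R s) (c s) i x| ≤
        2 ^ k * (2 * Real.log d ^ 2 * (d : ℝ) ^ (48 / 100 : ℝ)) :=
          mul_le_mul_of_nonneg_left (dvb s i x hi) (by positivity)
      _ = 2 ^ k * 2 * Real.log d ^ 2 * (d : ℝ) ^ (48 / 100 : ℝ) := by ring
      _ ≤ _ := B1
  · intro s x j hj
    cases s
    · -- noise of the system `true`
      obtain ⟨t, ht⟩ := hw1 x j
      have h1 := cv_nz hC1 hCl hσ hj t
      rw [ht, p48] at h1
      have h2 := wt_sq (R false) (fun y => c false y x ∈ fl j) h x d (by omega)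
        (fun y => 1 / ct (R false) y) 10 (by norm_num) (hwt false) (hin false x)
      have h2' : Real.sqrt (∑ y, (if R false y x ∧ c false y x ∈ fl j ∧ h y then
          1 / ct (R false) y else 0) ^ 2) ≤ 10 * (d : ℝ) ^ (-(1 / 2) : ℝ) := by
        refine le_trans (le_of_eq ?_) h2
        congr 1
        refine sum_congr rfl fun y _ => ?_
        by_cases h3 : R false y x ∧ c false y x ∈ fl j ∧ h y
        · rw [if_pos h3, if_pos h3]
        · rw [if_neg h3, if_neg h3]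
      refine le_trans (le_of_eq ?_) (h1.trans ?_)
      · congr 1
        refine sum_congr rfl fun y _ => ?_
        simp only [Bool.not_false]
        split_ifs <;> ring
      · calc _ ≤ 2 ^ k * (2 * Real.log d ^ 2 * (d : ℝ) ^ (48 / 100 : ℝ) *
              (10 * (d : ℝ) ^ (-(1 / 2) : ℝ))) := by
              refine mul_le_mul_of_nonneg_left ?_ (by positivity)
              exact mul_le_mul_of_nonneg_left h2' (by positivity)
          _ = 20 * 2 ^ k * Real.log d ^ 2 * ((d : ℝ) ^ (48 / 100 : ℝ) *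
              (d : ℝ) ^ (-(1 / 2) : ℝ)) := by ring
          _ = 20 * 2 ^ k * Real.log d ^ 2 * (d : ℝ) ^ (-(2 / 100) : ℝ) := by rw [e50]
          _ ≤ _ := B2
    · -- noise of the system `false`
      set G : W → ℝ := fun y => if h y then
        nzr k σ bs fl (R false) (c false) j y / ct (R true) y else 0 with hG
      obtain ⟨t, htx, htg⟩ := hg1 x j
      have hN : ∀ y, |nzr k σ bs fl (R false) (c false) j y| ≤
          2 ^ k * (2 * Real.log d ^ 2 * (d : ℝ) ^ (46 / 100 : ℝ)) := by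
        intro y
        refine nzf_le hCl hσ hj (by positivity) fun i hi => ?_
        have := cv_dv hC0' y (hδ0 y) i hi
        refine this.trans (le_of_eq ?_)
        congr 2; norm_num
      have hGb : ∀ y, |G y| ≤ 2 ^ k * (2 * Real.log d ^ 2 * (d : ℝ) ^ (46 / 100 : ℝ)) *
          (10 / d) := by
        intro y
        simp only [hG]
        by_cases hy : h y
        · rw [if_pos hy, div_eq_mul_one_div, abs_mul]
          exact mul_le_mul (hN y) (hwt true y hy) (abs_nonneg _) (by positivity)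
        · rw [if_neg hy, abs_zero]; positivity
      -- the sum over all arcs
      have a1 : |os (rv (R true)) x G| ≤ 20 * 2 ^ k * Real.log d ^ 2 *
          (d : ℝ) ^ (-(4 / 100) : ℝ) := by
        obtain ⟨t', ht'⟩ := hw0 x
        have h1 := cv_nz hC0' hCl hσ hj t'
        rw [ht'] at h1
        have h2 := wt_sq (R true) (fun _ => True) h x d (by omega)
          (fun y => 1 / ct (R true) y) 10 (by norm_num) (hwt true) (hin true x)
        simp only [true_and] at h2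
        refine le_trans (le_of_eq ?_) (h1.trans ?_)
        · congr 1
          unfold os rv
          refine sum_congr rfl fun y _ => ?_
          simp only [hG]
          by_cases h3 : R true y x <;> by_cases h4 : h y <;> simp [h3, h4]
          ring
        · calc _ ≤ 2 ^ k * (2 * Real.log d ^ 2 * (d : ℝ) ^ ((1 - 8 / 100) / 2 : ℝ) *
                (10 * (d : ℝ) ^ (-(1 / 2) : ℝ))) := by
                refine mul_le_mul_of_nonneg_left ?_ (by positivity)
                exact mul_le_mul_of_nonneg_left h2 (by positivity)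
            _ = 20 * 2 ^ k * Real.log d ^ 2 * ((d : ℝ) ^ ((1 - 8 / 100) / 2 : ℝ) *
                (d : ℝ) ^ (-(1 / 2) : ℝ)) := by ring
            _ = _ := by rw [← Real.rpow_add hdp]; congr 2; norm_num
      -- the root
      have a2 : Real.sqrt (os (rv (R true)) x fun y => G y ^ 2) ≤ 20 * 2 ^ k * Real.log d ^ 2 *
          (d : ℝ) ^ (-(4 / 100) : ℝ) := by
        have h1 : os (rv (R true)) x (fun y => G y ^ 2) ≤
            (20 * 2 ^ k * Real.log d ^ 2 * (d : ℝ) ^ (-(4 / 100) : ℝ)) ^ 2 := by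
          have h2 : os (rv (R true)) x (fun y => G y ^ 2) ≤
              (2 ^ k * (2 * Real.log d ^ 2 * (d : ℝ) ^ (46 / 100 : ℝ)) * (10 / d)) ^ 2 *
              ct (rv (R true)) x := by
            refine os_le_ct fun y _ => ?_
            rw [← sq_abs]
            exact pow_le_pow_left₀ (abs_nonneg _) (hGb y) 2
          have h3 := mul_le_mul_of_nonneg_left (hin true x) (sq_nonneg
            (2 ^ k * (2 * Real.log d ^ 2 * (d : ℝ) ^ (46 / 100 : ℝ)) * (10 / (d : ℝ))))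
          refine (h2.trans h3).trans (le_of_eq ?_)
          have h4 : ((d : ℝ) ^ (46 / 100 : ℝ)) ^ 2 = (d : ℝ) ^ (92 / 100 : ℝ) := by
            rw [← Real.rpow_natCast, ← Real.rpow_mul hdp.le]; norm_num
          have h5 : ((d : ℝ) ^ (-(4 / 100) : ℝ)) ^ 2 = (d : ℝ) ^ (92 / 100 : ℝ) / d := by
            rw [← Real.rpow_natCast, ← Real.rpow_mul hdp.le]
            rw [show (d : ℝ) ^ (92 / 100 : ℝ) / d = (d : ℝ) ^ (92 / 100 : ℝ) / (d : ℝ) ^ (1 : ℝ) by
              rw [Real.rpow_one], ← Real.rpow_sub hdp]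
            norm_num
          rw [mul_pow (20 * 2 ^ k * Real.log d ^ 2), h5]
          rw [show (2 ^ k * (2 * Real.log d ^ 2 * (d : ℝ) ^ (46 / 100 : ℝ)) * (10 / (d : ℝ))) ^ 2 *
            d = (20 * 2 ^ k * Real.log d ^ 2) ^ 2 * (((d : ℝ) ^ (46 / 100 : ℝ)) ^ 2 / d) by
              field_simp; ring, h4]
        refine (Real.sqrt_le_sqrt h1).trans (le_of_eq ?_)
        rw [Real.sqrt_sq (by positivity)]
      -- one cell
      have hlog4 : Real.log d ^ 2 ≤ Real.log d ^ 4 :=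
        pow_le_pow_right₀ hlog (by norm_num)
      have p42 : (d : ℝ) ^ (-(4 / 100) : ℝ) ≤ (d : ℝ) ^ (-(2 / 100) : ℝ) :=
        Real.rpow_le_rpow_of_exponent_le (by linarith) (by norm_num)
      have a3 : ∀ i, i < 2 ^ k → |os (inC (rv (R true)) (sw (c true)) i) x G| ≤
          40 * 2 ^ k * Real.log d ^ 4 * (d : ℝ) ^ (-(2 / 100) : ℝ) := by
        intro i hi
        have h1 := hC1.gi t i hi
        rw [htx, htg] at h1
        have h2 : Real.log d ^ 2 * (d : ℝ) ^ ((4 / 100 : ℝ) / 2) *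
            Real.sqrt (os (rv (R true)) x fun y => G y ^ 2) ≤
            20 * 2 ^ k * Real.log d ^ 4 * (d : ℝ) ^ (-(2 / 100) : ℝ) := by
          calc _ ≤ Real.log d ^ 2 * (d : ℝ) ^ ((4 / 100 : ℝ) / 2) *
                (20 * 2 ^ k * Real.log d ^ 2 * (d : ℝ) ^ (-(4 / 100) : ℝ)) :=
                mul_le_mul_of_nonneg_left a2 (by positivity)
            _ = 20 * 2 ^ k * Real.log d ^ 4 * ((d : ℝ) ^ ((4 / 100 : ℝ) / 2) *
                (d : ℝ) ^ (-(4 / 100) : ℝ)) := by ring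
            _ = _ := by rw [← Real.rpow_add hdp]; congr 2; norm_num
        have h3 := h1.trans h2
        have h4 : |os (rv (R true)) x G / 2 ^ k| ≤ |os (rv (R true)) x G| := by
          rw [abs_div, abs_of_pos (show (0 : ℝ) < 2 ^ k by positivity)]
          exact div_le_self (abs_nonneg _) (one_le_pow₀ (by norm_num))
        have h5 : 20 * 2 ^ k * Real.log d ^ 2 * (d : ℝ) ^ (-(4 / 100) : ℝ) ≤
            20 * 2 ^ k * Real.log d ^ 4 * (d : ℝ) ^ (-(2 / 100) : ℝ) := by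
          refine mul_le_mul ?_ p42 (p0 _) (by positivity)
          exact mul_le_mul_of_nonneg_left hlog4 (by positivity)
        have h6 := abs_sub_abs_le_abs_sub (os (inC (rv (R true)) (sw (c true)) i) x G)
          (os (rv (R true)) x G / 2 ^ k)
        have h7 : |os (inC (rv (R true)) (sw (c true)) i) x G| ≤
            20 * 2 ^ k * Real.log d ^ 4 * (d : ℝ) ^ (-(2 / 100) : ℝ) +
            20 * 2 ^ k * Real.log d ^ 4 * (d : ℝ) ^ (-(2 / 100) : ℝ) := by linarith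
        linarith
      have a4 : (∑ y, if R true y x ∧ c true y x ∈ fl j ∧ h y then
          nzr k σ bs fl (R (!true)) (c (!true)) j y / ct (R true) y else 0) =
          ∑ i ∈ fl j, os (inC (rv (R true)) (sw (c true)) i) x G := by
        unfold os
        rw [sum_comm]
        refine sum_congr rfl fun y _ => ?_
        simp only [Bool.not_true, hG, inC, rv, sw]
        by_cases h1 : R true y x
        · by_cases h2 : h y
          · simp only [h1, h2, true_and, and_true, if_true]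
            rw [Finset.sum_ite_eq]
          · simp [h1, h2]
        · simp [h1]
      rw [a4]
      calc |∑ i ∈ fl j, os (inC (rv (R true)) (sw (c true)) i) x G| ≤
            ∑ i ∈ fl j, |os (inC (rv (R true)) (sw (c true)) i) x G| := abs_sum_le_sum_abs _ _
        _ ≤ ∑ _i ∈ fl j, 40 * 2 ^ k * Real.log d ^ 4 * (d : ℝ) ^ (-(2 / 100) : ℝ) :=
            sum_le_sum fun i hi => a3 i (mem_range.1 (hCl.flr j hi))
        _ = 120 * 2 ^ k * Real.log d ^ 4 * (d : ℝ) ^ (-(2 / 100) : ℝ) := by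
            rw [sum_const, hCl.f3 j hj, nsmul_eq_mul]; push_cast; ring
        _ ≤ _ := B3
  · intro s q j hj
    have hsq : Real.sqrt (∑ v, f q v ^ 2) ≤ C * (d : ℝ) ^ (1 / 2 : ℝ) := by
      have h1 : ∑ v, f q v ^ 2 ≤ C ^ 2 * d := by
        calc ∑ v, f q v ^ 2 ≤ ∑ v, C * |f q v| := by
              refine sum_le_sum fun v _ => ?_
              rw [← sq_abs, sq]
              exact mul_le_mul_of_nonneg_right (hfC q v) (abs_nonneg _)
          _ = C * ∑ v, |f q v| := by rw [mul_sum]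
          _ ≤ C * (C * d) := mul_le_mul_of_nonneg_left (hf1 q) hC0.le
          _ = _ := by ring
      refine (Real.sqrt_le_sqrt h1).trans (le_of_eq ?_)
      rw [Real.sqrt_mul (sq_nonneg _), Real.sqrt_sq hC0.le, Real.sqrt_eq_rpow]
    have e98 : (d : ℝ) ^ (48 / 100 : ℝ) * (d : ℝ) ^ (1 / 2 : ℝ) = (d : ℝ) ^ (98 / 100 : ℝ) := by
      rw [← Real.rpow_add hdp]; norm_num
    have hfin : 2 ^ k * (2 * Real.log d ^ 2 * (d : ℝ) ^ (48 / 100 : ℝ) *
        Real.sqrt (∑ v, f q v ^ 2)) ≤ (d : ℝ) ^ (985 / 1000 : ℝ) := by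
      calc _ ≤ 2 ^ k * (2 * Real.log d ^ 2 * (d : ℝ) ^ (48 / 100 : ℝ) *
            (C * (d : ℝ) ^ (1 / 2 : ℝ))) := by
            refine mul_le_mul_of_nonneg_left ?_ (by positivity)
            exact mul_le_mul_of_nonneg_left hsq (by positivity)
        _ = 2 ^ k * 2 * C * Real.log d ^ 2 * ((d : ℝ) ^ (48 / 100 : ℝ) *
            (d : ℝ) ^ (1 / 2 : ℝ)) := by ring
        _ = 2 ^ k * 2 * C * Real.log d ^ 2 * (d : ℝ) ^ (98 / 100 : ℝ) := by rw [e98]
        _ ≤ _ := B4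
    cases s
    · obtain ⟨t, ht⟩ := hq0 q
      have h1 := cv_nz hC0' hCl hσ hj t
      rw [ht] at h1
      refine h1.trans (le_trans ?_ hfin)
      refine mul_le_mul_of_nonneg_left ?_ (by positivity)
      refine mul_le_mul_of_nonneg_right ?_ (Real.sqrt_nonneg _)
      exact mul_le_mul_of_nonneg_left p46 (by positivity)
    · obtain ⟨t, ht⟩ := hq1 q
      have h1 := cv_nz hC1 hCl hσ hj t
      rw [ht, p48] at h1
      exact h1.trans hfin

end noise

end Pool.Agent.Work.MP_db9399_ts.helper39
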