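import Pool.Agent.Work.MP_db9399_ts_helper39.Asm

/-!
# MP_db9399, TSPLIT, block OSYS (helper39)

Systems, cells and sparse sets inside `O`: orientation and systems from HLV (helper89, LABQ of
helper21), cells from CELL (helper83), sets from RND (labM of helper61).
-/

set_option autoImplicit false

namespace Pool.Agent.Work.MP_db9399_ts.helper39

open Finset Classical
open Pool.Agent.Work.MP_db9399_all (nb)
open Pool.Agent.Work.MP_db9399_clj.helper75 (OO blk nB eE cO lgF)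
open Pool.Agent.Work.MP_db9399_ts

universe u

section lem

variable {W B : Type u} [Fintype W] [Fintype B]

/-- the low vertices -/
noncomputable def LoS (X : Dat W B) (u : W) : Finset W :=
  (OO X.bl).filter fun w => cO X.G X.bl u w < (X.d : ℝ) ^ (9 / 10 : ℝ)

/-- the blocks near `u` -/
noncomputable def NbS (X : Dat W B) (u : W) : Finset B :=
  univ.filter fun b => ∃ y ∈ nb X.G u, ∃ w ∈ nb X.G y, X.bl w = some b

theorem nbs_card (X : Dat W B) (hG : ∀ v, (nb X.G v).card = X.d) (u : W) :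
    (NbS X u).card ≤ X.d ^ 2 := by
  have h1 : (NbS X u).image some ⊆ ((nb X.G u).biUnion fun y => nb X.G y).image X.bl := by
    intro o ho
    obtain ⟨b, hb, rfl⟩ := mem_image.1 ho
    simp only [NbS, mem_filter, mem_univ, true_and] at hb
    obtain ⟨y, hy, w, hw, hwb⟩ := hb
    exact mem_image.2 ⟨w, mem_biUnion.2 ⟨y, hy, hw⟩, hwb⟩
  have h2 : ((NbS X u).image some).card = (NbS X u).card :=
    card_image_of_injective _ (Option.some_injective _)
  calc (NbS X u).card ≤ (((nb X.G u).biUnion fun y => nb X.G y).image X.bl).card := by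
        rw [← h2]; exact card_le_card h1
    _ ≤ ((nb X.G u).biUnion fun y => nb X.G y).card := card_image_le
    _ ≤ ∑ y ∈ nb X.G u, (nb X.G y).card := card_biUnion_le
    _ = X.d ^ 2 := by rw [sum_congr rfl fun y _ => hG y, sum_const, hG, smul_eq_mul, sq]

theorem nb_FO (X : Dat W B) {u : W} (hu : u ∈ OO X.bl) : nb X.FO u = nb X.G u ∩ OO X.bl := by
  ext y
  simp only [OO, mem_filter, mem_univ, true_and] at hu
  simp only [nb, OO, Dat.FO, mem_filter, mem_univ, true_and, mem_inter]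
  exact ⟨fun h => ⟨h.1, h.2.2⟩, fun h => ⟨h.1, hu, h.2⟩⟩

theorem nb_FO_sub (X : Dat W B) (u : W) : nb X.FO u ⊆ nb X.G u ∩ OO X.bl := by
  intro y hy
  simp only [nb, OO, Dat.FO, mem_filter, mem_univ, true_and, mem_inter] at hy ⊢
  exact ⟨hy.1, hy.2.2⟩

theorem lgF_O (X : Dat W B) (F : Finset B) : lgF X.G X.bl X.d F ⊆ OO X.bl := filter_subset _ _

/-- only the near blocks matter -/
theorem lgF_near (X : Dat W B) (u : W) (F : Finset B) :
    nb X.G u ∩ lgF X.G X.bl X.d F = nb X.G u ∩ lgF X.G X.bl X.d (F ∩ NbS X u) := by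
  ext y
  simp only [mem_inter]
  refine and_congr_right fun hy => ?_
  unfold lgF
  simp only [mem_filter]
  refine and_congr_right fun _ => ?_
  have h1 : (nb X.G y ∩ univ.filter fun w => ∃ b, X.bl w = some b ∧ b ∉ F) =
      (nb X.G y ∩ univ.filter fun w => ∃ b, X.bl w = some b ∧ b ∉ F ∩ NbS X u) := by
    ext w
    simp only [mem_inter, mem_filter, mem_univ, true_and]
    refine and_congr_right fun hw => ⟨?_, ?_⟩
    · rintro ⟨b, hb, hbF⟩
      exact ⟨b, hb, fun h => hbF h.1⟩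
    · rintro ⟨b, hb, hbF⟩
      refine ⟨b, hb, fun h => hbF ⟨h, ?_⟩⟩
      simp only [NbS, mem_filter, mem_univ, true_and]
      exact ⟨y, hy, w, hw, hb⟩
  rw [h1]

/-- the degrees into a set in one cell -/
theorem cg_sum {k : ℕ} {Y : Arcs W} {R : Bool → W → W → Prop} {c : Bool → W → W → ℕ}
    (h : Ys k Y R c) (has : ∀ s s' v w, R s v w → ¬ R s' w v) (i : ℕ) (u : W) (S : Finset W) :
    ∑ s : Bool, ns (inC (R s) (c s) i) u (fun y => if y ∈ S then 1 else 0) ≤
      ((nb (Y.cg {i}) u ∩ S).card : ℝ) := by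
  rw [← card_nb_inter]
  unfold nb
  rw [Finset.sum_filter]
  unfold ns
  rw [sum_comm]
  refine sum_le_sum fun y _ => ?_
  rw [Fintype.sum_bool]
  -- membership
  have e1 : ∀ s, (inC (R s) (c s) i u y ∨ inC (R s) (c s) i y u) → (Y.cg {i}).Adj u y := by
    rintro s (h1 | h1)
    · have h2 := (h.ar s u y).2 h1.1
      have h3 := h.ce s u y h1.1
      refine ⟨?_, Or.inl ⟨h2.1, ?_⟩⟩
      · rintro rfl
        exact has _ _ _ _ h1.1 h1.1
      · rw [h3, h1.2]; simp
    · have h2 := (h.ar s y u).2 h1.1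
      have h3 := h.ce s y u h1.1
      refine ⟨?_, Or.inr ⟨h2.1, ?_⟩⟩
      · rintro rfl
        exact has _ _ _ _ h1.1 h1.1
      · rw [h3, h1.2]; simp
  have e2 : ¬ ((inC (R true) (c true) i u y ∨ inC (R true) (c true) i y u) ∧
      (inC (R false) (c false) i u y ∨ inC (R false) (c false) i y u)) := by
    rintro ⟨h1 | h1, h2 | h2⟩
    · have h3 := ((h.ar true u y).2 h1.1).2
      have h4 := ((h.ar false u y).2 h2.1).2
      rw [h3] at h4
      exact Bool.noConfusion h4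
    · exact has _ _ _ _ h1.1 h2.1
    · exact has _ _ _ _ h1.1 h2.1
    · have h3 := ((h.ar true y u).2 h1.1).2
      have h4 := ((h.ar false y u).2 h2.1).2
      rw [h3] at h4
      exact Bool.noConfusion h4
  have e3 : (0 : ℝ) ≤ if y ∈ S then 1 else 0 := by split_ifs <;> norm_num
  by_cases h1 : inC (R true) (c true) i u y ∨ inC (R true) (c true) i y u
  · have h2 : ¬ (inC (R false) (c false) i u y ∨ inC (R false) (c false) i y u) :=
      fun h2 => e2 ⟨h1, h2⟩
    rw [if_pos h1, if_neg h2, if_pos (e1 true h1), add_zero]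
  · by_cases h2 : inC (R false) (c false) i u y ∨ inC (R false) (c false) i y u
    · rw [if_neg h1, if_pos h2, if_pos (e1 false h2), zero_add]
    · rw [if_neg h1, if_neg h2, add_zero]
      by_cases h3 : (Y.cg {i}).Adj u y
      · rw [if_pos h3]; exact e3
      · rw [if_neg h3]

/-- the codegrees in one cell -/
theorem cg_co {k : ℕ} {X : Dat W B} {Y : Arcs W} {R : Bool → W → W → Prop}
    {c : Bool → W → W → ℕ} (h : Ys k Y R c) (has : ∀ s s' v w, R s v w → ¬ R s' w v)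
    (hO : ∀ s v w, R s v w → v ∈ OO X.bl ∧ w ∈ OO X.bl) (i : ℕ) (u w : W) :
    ns (inC (R true) (c true) i) u (fun y => sC (R false) (c false) i y w) ≤
      cO (Y.cg {i}) X.bl u w := by
  have e0 : ∀ s v w, (inC (R s) (c s) i v w ∨ inC (R s) (c s) i w v) →
      (Y.cg {i}).Adj v w ∧ w ∈ OO X.bl := by
    rintro s v w (h1 | h1)
    · have h2 := (h.ar s v w).2 h1.1
      have h3 := h.ce s v w h1.1
      refine ⟨⟨?_, Or.inl ⟨h2.1, ?_⟩⟩, (hO _ _ _ h1.1).2⟩
      · rintro rfl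
        exact has _ _ _ _ h1.1 h1.1
      · rw [h3, h1.2]; simp
    · have h2 := (h.ar s w v).2 h1.1
      have h3 := h.ce s w v h1.1
      refine ⟨⟨?_, Or.inr ⟨h2.1, ?_⟩⟩, (hO _ _ _ h1.1).1⟩
      · rintro rfl
        exact has _ _ _ _ h1.1 h1.1
      · rw [h3, h1.2]; simp
  unfold cO ns sC
  rw [show nb (Y.cg {i}) u ∩ nb (Y.cg {i}) w ∩ OO X.bl = univ.filter fun y =>
    ((Y.cg {i}).Adj u y ∧ (Y.cg {i}).Adj w y) ∧ y ∈ OO X.bl from ?_, ← Finset.sum_boole]
  · refine sum_le_sum fun y _ => ?_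
    by_cases h1 : inC (R true) (c true) i u y ∨ inC (R true) (c true) i y u
    · rw [if_pos h1]
      by_cases h2 : inC (R false) (c false) i y w ∨ inC (R false) (c false) i w y
      · have h3 := e0 true u y h1
        have h4 := e0 false y w h2
        simp only [if_pos h2]
        rw [if_pos ⟨⟨h3.1, h4.1.symm⟩, h3.2⟩]
      · simp only [if_neg h2]
        split_ifs <;> norm_num
    · rw [if_neg h1]
      split_ifs <;> norm_num
  · ext y
    simp only [nb, mem_inter, mem_filter, mem_univ, true_and]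

end lem

set_option maxHeartbeats 8000000 in
/-- OSYS from CELL, HLV, RND -/
theorem stmt_OSYS' (hCELL : Stmt_CELL.{u}) (hHLV : MP_db9399_oo.Stmt_HLV.{u})
    (hRND : MP_db9399_oo.Stmt_RND.{u}) : Stmt_OSYS.{u} := by
  intro k
  have h4k : (1 : ℝ) ≤ 4 ^ k := one_le_pow₀ (by norm_num)
  have h2k : (1 : ℝ) ≤ 2 ^ k := one_le_pow₀ (by norm_num)
  have h4kp : (0 : ℝ) < 4 ^ k := by positivity
  have h2kp : (0 : ℝ) < 2 ^ k := by positivity
  have h24 : (2 : ℝ) ^ k ≤ 4 ^ k := pow_le_pow_left₀ (by norm_num) (by norm_num) k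
  refine ⟨1 / (8 * 4 ^ k), by positivity, ?_, ?_⟩
  · rw [div_le_one (by positivity)]; linarith
  intro A C K1 ρ hA hC hK1 hρ hρ1
  obtain ⟨ρ5, hρ5⟩ : ∃ z : ℝ, z = ρ / (32 * 2 ^ k) := ⟨_, rfl⟩
  obtain ⟨μ, hμ⟩ : ∃ z : ℝ, z = ρ5 / 40 := ⟨_, rfl⟩
  have hρ5p : 0 < ρ5 := by rw [hρ5]; positivity
  have hμp : 0 < μ := by rw [hμ]; positivity
  have hρ5ρ : ρ5 ≤ ρ := by
    rw [hρ5]
    exact div_le_self hρ.le (by linarith)
  have hμ1 : μ ≤ 1 / 40 := by rw [hμ]; linarith
  obtain ⟨n1, sysE⟩ := sys_ex hHLV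
  obtain ⟨n2, clE⟩ := cl_ex hCELL k ⌊K1⌋₊ A C hA hC
  obtain ⟨n3, ohE⟩ := ohf_of.{u} k μ hμp (by linarith)
  obtain ⟨n4, seE⟩ := sets_ex hRND (ULift.{u} (Fin 6 ⊕ (Fin 6 ⊕ Bool)))
  obtain ⟨n5, hn5⟩ := big 40 0 (505 / 1000) 1 (by norm_num)
  obtain ⟨n6, hn6⟩ := big (40 / ρ5) 1 (1 / 2) 1 (by norm_num)
  obtain ⟨n7, hn7⟩ := big (2 / ρ) 1 (1 / 2) 1 (by norm_num)
  obtain ⟨n8, hn8⟩ := big (110 * 2 ^ k / ρ) 1 (1 / 2) 1 (by norm_num)
  obtain ⟨n9, hn9⟩ := big (8 * 4 ^ k) 0 (6 / 10) (9 / 10) (by norm_num)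
  obtain ⟨n10, hn10⟩ := big 4 0 (485 / 1000) (8 / 10) (by norm_num)
  obtain ⟨n11, hn11⟩ := big 4 0 (985 / 1000) (99 / 100) (by norm_num)
  refine ⟨μ / (4 * 2 ^ k), ρ5, by positivity, ?_, hρ5p, hρ5ρ,
    n1 + n2 + n3 + n4 + n5 + n6 + n7 + n8 + n9 + n10 + n11 + 3, ?_⟩
  · rw [div_le_one (by positivity)]; linarith
  intro W B τ _ _ _ X σ bs fl f hd hreg hσ hCc hf hfC hf1
  have hd3 : 3 ≤ X.d := by omega
  have hdr : (3 : ℝ) ≤ X.d := by exact_mod_cast hd3
  have hdp : (0 : ℝ) < X.d := by linarith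
  have hlog : 1 ≤ Real.log X.d := by
    rw [← Real.log_exp 1]
    exact Real.log_le_log (Real.exp_pos _) (by linarith [Real.exp_one_lt_d9])
  have N5 : 40 * (X.d : ℝ) ^ (505 / 1000 : ℝ) ≤ X.d := by
    have := hn5 X.d (by omega)
    rwa [pow_zero, mul_one, Real.rpow_one] at this
  have N6 : 40 / ρ5 * Real.log X.d * (X.d : ℝ) ^ (1 / 2 : ℝ) ≤ X.d := by
    have := hn6 X.d (by omega)
    rwa [pow_one, Real.rpow_one] at this
  have N7 : 2 / ρ * Real.log X.d * (X.d : ℝ) ^ (1 / 2 : ℝ) ≤ X.d := by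
    have := hn7 X.d (by omega)
    rwa [pow_one, Real.rpow_one] at this
  have N8 : 110 * 2 ^ k / ρ * Real.log X.d * (X.d : ℝ) ^ (1 / 2 : ℝ) ≤ X.d := by
    have := hn8 X.d (by omega)
    rwa [pow_one, Real.rpow_one] at this
  have N9 : 8 * 4 ^ k * (X.d : ℝ) ^ (6 / 10 : ℝ) ≤ (X.d : ℝ) ^ (9 / 10 : ℝ) := by
    have := hn9 X.d (by omega)
    rwa [pow_zero, mul_one] at this
  have N10 : 4 * (X.d : ℝ) ^ (485 / 1000 : ℝ) ≤ (X.d : ℝ) ^ (8 / 10 : ℝ) := by
    have := hn10 X.d (by omega)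
    rwa [pow_zero, mul_one] at this
  have N11 : 4 * (X.d : ℝ) ^ (985 / 1000 : ℝ) ≤ (X.d : ℝ) ^ (99 / 100 : ℝ) := by
    have := hn11 X.d (by omega)
    rwa [pow_zero, mul_one] at this
  -- systems and cells
  have hF : ∀ v, (nb X.FO v).card ≤ X.d := fun v =>
    (card_le_card ((nb_FO_sub X v).trans inter_subset_left)).trans (hreg v).le
  obtain ⟨R, hS⟩ := sysE X.FO X.d (LoS X) (by omega) hF
  obtain ⟨c, hCl⟩ := clE X.FO X.d σ bs fl X.h1 f (LoS X) (NbS X) (lgF X.G X.bl X.d) R (by omega)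
    hF hS (fun x hx => hx.2) hCc hσ hf hfC hf1 (nbs_card X hreg)
  have hbig : ∀ s x, X.h1 x → (X.d : ℝ) / 10 ≤ ct (R s) x := by
    intro s x hx
    have h1 := (abs_le.1 (hS.o s x)).1
    have h2 : (X.d : ℝ) / 2 ≤ ((nb X.FO x).card : ℝ) := hx.2
    linarith
  have hbig' : ∀ s x, X.h1 x → (X.d : ℝ) / 10 ≤ ct (rv (R s)) x := by
    intro s x hx
    have h1 := (abs_le.1 (hS.i s x)).1
    have h2 : (X.d : ℝ) / 2 ≤ ((nb X.FO x).card : ℝ) := hx.2
    linarith
  obtain ⟨Y, hYd⟩ : ∃ Y : Arcs W, Y = ⟨fun v w => R true v w ∨ R false v w,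
    fun v w => decide (R true v w), fun v w => if R true v w then c true v w else c false v w⟩ :=
    ⟨_, rfl⟩
  have hY : Ys k Y R c := by
    subst hYd
    refine ⟨?_, ?_, hCl.lt⟩
    · intro s v w
      cases s
      · simp only [decide_eq_false_iff_not]
        constructor
        · rintro ⟨h1 | h1, h2⟩
          · exact absurd h1 h2
          · exact h1
        · intro h1
          exact ⟨Or.inr h1, fun h2 => hS.dj _ _ h2 h1⟩
      · simp only [decide_eq_true_eq]
        exact ⟨fun h1 => h1.2, fun h1 => ⟨Or.inl h1, h1⟩⟩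
    · intro s v w hR
      cases s
      · show (if R true v w then c true v w else c false v w) = c false v w
        rw [if_neg fun h2 => hS.dj _ _ h2 hR]
      · show (if R true v w then c true v w else c false v w) = c true v w
        rw [if_pos hR]
  have har : ∀ v w, Y.ar v w ↔ ∃ s, R s v w := by
    intro v w
    constructor
    · intro h1
      exact ⟨Y.sy v w, (hY.ar _ v w).1 ⟨h1, rfl⟩⟩
    · rintro ⟨s, hs⟩
      exact ((hY.ar s v w).2 hs).1
  have harF : ∀ v w, Y.ar v w → X.FO.Adj v w := by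
    intro v w h1
    obtain ⟨s, hs⟩ := (har v w).1 h1
    exact hS.sub _ _ _ hs
  have hFO : ∀ v w, X.FO.Adj v w → w ∈ nb X.G v ∩ OO X.bl := by
    intro v w h1
    exact nb_FO_sub X v (by simp only [nb, mem_filter, mem_univ, true_and]; exact h1)
  have hOO : ∀ s v w, R s v w → v ∈ OO X.bl ∧ w ∈ OO X.bl := by
    intro s v w h1
    exact ⟨(mem_inter.1 (hFO w v (hS.sub _ _ _ h1).symm)).2,
      (mem_inter.1 (hFO v w (hS.sub _ _ _ h1))).2⟩
  -- the sets
  obtain ⟨S, hSd⟩ : ∃ S : ULift.{u} (Fin 6 ⊕ (Fin 6 ⊕ Bool)) → W → Finset W, S = fun m x =>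
    Sum.elim (fun j => univ.filter fun y => Y.ar x y ∧ Y.ce x y ∈ fl j)
      (Sum.elim (fun j => univ.filter fun y => Y.ar y x ∧ Y.ce y x ∈ fl j)
        (fun b => cond b (nb X.G x ∩ OO X.bl) (nb (Y.cg (bs 5)) x))) m.down := ⟨_, rfl⟩
  have hSs : ∀ m v, S m v ⊆ nb X.G v ∩ OO X.bl := by
    intro m v y hy
    subst hSd
    obtain ⟨m⟩ := m
    rcases m with j | j | b
    · simp only [Sum.elim_inl, mem_filter, mem_univ, true_and] at hy
      exact hFO _ _ (harF _ _ hy.1)
    · simp only [Sum.elim_inl, Sum.elim_inr, mem_filter, mem_univ, true_and] at hy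
      exact hFO _ _ (harF _ _ hy.1).symm
    · cases b
      · simp only [Sum.elim_inr, cond_false, nb, mem_filter, mem_univ, true_and] at hy
        rcases hy.2 with h1 | h1
        · exact hFO _ _ (harF _ _ h1.1)
        · exact hFO _ _ (harF _ _ h1.1).symm
      · simp only [Sum.elim_inr, cond_true] at hy
        exact hy
  obtain ⟨L, hL3, hL⟩ := seE X.G (OO X.bl) X.d ![μ, μ, ρ / 2, 1 - 2 * μ - ρ / 2] S (by omega)
    (fun v => (hreg v).le) hSs (by
      intro j
      fin_cases j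
      · exact hμp.le
      · exact hμp.le
      · show 0 ≤ ρ / 2; linarith
      · show 0 ≤ 1 - 2 * μ - ρ / 2; linarith) (by
      rw [Fin.sum_univ_four]
      show μ + μ + ρ / 2 + (1 - 2 * μ - ρ / 2) = 1
      ring)
  have hLO : ∀ y (j : Fin 4), j ≠ 3 → L y = j → y ∈ OO X.bl := by
    intro y j hj hy
    by_contra h1
    exact hj (hy.symm.trans (hL3 y h1))
  obtain ⟨Z, hZ⟩ : ∃ z : ℝ, z = Real.log X.d * (X.d : ℝ) ^ (1 / 2 : ℝ) := ⟨_, rfl⟩
  have hsq : Real.log X.d * Real.sqrt X.d = Z := by rw [hZ, Real.sqrt_eq_rpow]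
  rw [hsq] at hL
  have hZ6 : 20 * Z ≤ ρ5 / 2 * X.d := by
    have h1 := mul_le_mul_of_nonneg_left N6 (by positivity : 0 ≤ ρ5 / 2)
    have h2 : ρ5 / 2 * (40 / ρ5 * Real.log X.d * (X.d : ℝ) ^ (1 / 2 : ℝ)) = 20 * Z := by
      rw [hZ]; field_simp; ring
    linarith
  have hZ7 : Z ≤ ρ / 2 * X.d := by
    have h1 := mul_le_mul_of_nonneg_left N7 (by positivity : 0 ≤ ρ / 2)
    have h2 : ρ / 2 * (2 / ρ * Real.log X.d * (X.d : ℝ) ^ (1 / 2 : ℝ)) = Z := by
      rw [hZ]; field_simp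
    linarith
  have hZ8 : 2 * Z ≤ ρ / (55 * 2 ^ k) * X.d := by
    have h1 := mul_le_mul_of_nonneg_left N8 (by positivity : 0 ≤ ρ / (55 * 2 ^ k))
    have h2 : ρ / (55 * 2 ^ k) * (110 * 2 ^ k / ρ * Real.log X.d * (X.d : ℝ) ^ (1 / 2 : ℝ)) =
        2 * Z := by
      rw [hZ]; field_simp; ring
    linarith
  have hZ0 : 0 ≤ Z := by
    rw [hZ]
    exact mul_nonneg (by linarith) (Real.rpow_nonneg hdp.le _)
  have hp485 : (X.d : ℝ) ^ (485 / 1000 : ℝ) ≤ Z := by
    rw [hZ]
    calc (X.d : ℝ) ^ (485 / 1000 : ℝ) ≤ (X.d : ℝ) ^ (1 / 2 : ℝ) :=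
          Real.rpow_le_rpow_of_exponent_le (by linarith) (by norm_num)
      _ ≤ _ := le_mul_of_one_le_left (Real.rpow_nonneg hdp.le _) hlog
  have hnbO : ∀ v, ((nb X.G v ∩ OO X.bl).card : ℝ) ≤ X.d := by
    intro v
    rw [← hreg v, Nat.cast_le]
    exact card_le_card inter_subset_left
  -- the shares of the labels near a vertex
  have hlab : ∀ v (j : Fin 4) (p : ℝ), (![μ, μ, ρ / 2, 1 - 2 * μ - ρ / 2] : Fin 4 → ℝ) j = p →
      0 ≤ p → ((((nb X.G v ∩ OO X.bl).filter fun y => L y = j).card : ℕ) : ℝ) ≤ p * X.d + Z := by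
    intro v j p hp hp0
    have h1 := (abs_le.1 (hL (ULift.up (Sum.inr (Sum.inr true))) v j)).2
    rw [hSd] at h1
    simp only [Sum.elim_inr, cond_true] at h1
    rw [hp] at h1
    have h2 := mul_le_mul_of_nonneg_left (hnbO v) hp0
    linarith
  refine ⟨Y, univ.filter fun y => L y = 0, univ.filter fun y => L y = 1,
    univ.filter fun y => L y = 2, ⟨?_, ?_, ?_, ?_, ?_, ?_, ?_, ?_, ?_, ?_, ?_, ?_, ?_, ?_, ?_, ?_,
    ?_⟩, ?_⟩
  · -- arF
    intro v w
    constructor
    · intro h1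
      obtain ⟨s, hs | hs⟩ := hS.cov v w h1
      · exact Or.inl ((har v w).2 ⟨s, hs⟩)
      · exact Or.inr ((har w v).2 ⟨s, hs⟩)
    · rintro (h1 | h1)
      · exact harF v w h1
      · exact (harF w v h1).symm
  · -- ar2
    intro v w h1 h2
    obtain ⟨s, hs⟩ := (har v w).1 h1
    obtain ⟨s', hs'⟩ := (har w v).1 h2
    exact hS.as _ _ _ _ hs hs'
  · -- ce
    intro v w h1
    obtain ⟨s, hs⟩ := (har v w).1 h1
    rw [hY.ce s v w hs]
    exact hCl.lt s v w
  · -- out
    refine ohE X σ bs fl Y _ R c f (by omega) hCc hσ hY hCl.out hbig fun x j => ?_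
    have h1 := hL (ULift.up (Sum.inl j)) x 1
    rw [hSd] at h1
    simp only [Sum.elim_inl] at h1
    rw [hsq]
    refine le_trans (le_of_eq ?_) h1
    rw [Finset.filter_comm]
    rfl
  · -- inn
    refine ohE X σ bs fl Y.rev _ (fun s => rv (R s)) (fun s => sw (c s)) f (by omega) hCc hσ
      hY.rev hCl.inn hbig' fun x j => ?_
    have h1 := hL (ULift.up (Sum.inr (Sum.inl j))) x 0
    rw [hSd] at h1
    simp only [Sum.elim_inl, Sum.elim_inr] at h1
    rw [hsq]
    refine le_trans (le_of_eq ?_) h1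
    rw [Finset.filter_comm]
    rfl
  · intro y hy
    simp only [mem_filter, mem_univ, true_and] at hy
    exact hLO y 0 (by decide) hy
  · intro y hy
    simp only [mem_filter, mem_univ, true_and] at hy
    exact hLO y 1 (by decide) hy
  · intro y hy
    simp only [mem_filter, mem_univ, true_and] at hy
    exact hLO y 2 (by decide) hy
  · rw [Finset.disjoint_left]
    intro y hy hy'
    simp only [mem_filter, mem_univ, true_and] at hy hy'
    rw [hy] at hy'
    exact absurd hy' (by decide)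
  · rw [Finset.disjoint_left]
    intro y hy hy'
    simp only [mem_filter, mem_univ, true_and, mem_union] at hy hy'
    rw [hy] at hy'
    exact absurd hy' (by decide)
  · -- sp1
    intro v
    have h0 := hlab v 0 μ rfl hμp.le
    have h1 := hlab v 1 μ rfl hμp.le
    have h2 : ((nb X.G v ∩ ((univ.filter fun y => L y = 0) ∪ univ.filter fun y => L y = 1)).card :
        ℝ) ≤ (((nb X.G v ∩ OO X.bl).filter fun y => L y = 0).card : ℝ) +
        (((nb X.G v ∩ OO X.bl).filter fun y => L y = 1).card : ℝ) := by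
      rw [← Nat.cast_add, Nat.cast_le]
      refine (card_le_card ?_).trans (card_union_le _ _)
      intro y hy
      simp only [mem_inter, mem_union, mem_filter, mem_univ, true_and] at hy ⊢
      rcases hy.2 with h3 | h3
      · exact Or.inl ⟨⟨hy.1, hLO y 0 (by decide) h3⟩, h3⟩
      · exact Or.inr ⟨⟨hy.1, hLO y 1 (by decide) h3⟩, h3⟩
    have h3 : μ * X.d = ρ5 / 40 * X.d := by rw [hμ]
    linarith
  · -- sp5
    intro v
    have h0 := hlab v 2 (ρ / 2) rfl (by linarith)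
    have h2 : ((nb X.G v ∩ univ.filter fun y => L y = 2).card : ℝ) ≤
        (((nb X.G v ∩ OO X.bl).filter fun y => L y = 2).card : ℝ) := by
      rw [Nat.cast_le]
      refine card_le_card ?_
      intro y hy
      simp only [mem_inter, mem_filter, mem_univ, true_and] at hy ⊢
      exact ⟨⟨hy.1, hLO y 2 (by decide) hy.2⟩, hy.2⟩
    linarith
  · -- m5
    intro x hx
    have h1 := (abs_le.1 (hL (ULift.up (Sum.inr (Sum.inr false))) x 2)).1
    rw [hSd] at h1
    simp only [Sum.elim_inr, cond_false] at h1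
    obtain ⟨i, hi⟩ := hCc.ne 5
    have hik := mem_range.1 (hCc.bsr 5 hi)
    have h2 : ct (inC (R true) (c true) i) x ≤ ((nb (Y.cg (bs 5)) x).card : ℝ) := by
      unfold ct nb
      rw [Nat.cast_le]
      refine card_le_card fun y hy => ?_
      simp only [mem_filter, mem_univ, true_and] at hy ⊢
      refine ⟨?_, Or.inl ⟨(har x y).2 ⟨true, hy.1⟩, ?_⟩⟩
      · rintro rfl
        exact hS.as _ _ _ _ hy.1 hy.1
      · rw [hY.ce true x y hy.1, hy.2]
        exact hi
    have h3 : ct (R true) x / 2 ^ k - Z ≤ ct (inC (R true) (c true) i) x := by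
      have h4 := hCl.out.dv true i x hik
      have h5 : |dv k (R true) (c true) i x| ≤ 2 ^ k * |dv k (R true) (c true) i x| :=
        le_mul_of_one_le_left (abs_nonneg _) h2k
      have h6 := (abs_le.1 ((h5.trans h4).trans hp485)).1
      unfold dv at h6
      linarith
    have h4 : (X.d : ℝ) / 10 / 2 ^ k ≤ ct (R true) x / 2 ^ k :=
      div_le_div_of_nonneg_right (hbig true x hx) h2kp.le
    have h5 : (((nb (Y.cg (bs 5)) x).filter fun y => L y = 2).card : ℝ) =
        ((nb (Y.cg (bs 5)) x ∩ univ.filter fun y => L y = 2).card : ℝ) := by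
      congr 2
      ext y
      simp only [mem_inter, mem_filter, mem_univ, true_and]
    rw [h5] at h1
    have h6 : ρ / 2 * ((X.d : ℝ) / 10 / 2 ^ k - Z) ≤
        ρ / 2 * ((nb (Y.cg (bs 5)) x).card : ℝ) :=
      mul_le_mul_of_nonneg_left (by linarith) (by linarith)
    have h7 : (![μ, μ, ρ / 2, 1 - 2 * μ - ρ / 2] : Fin 4 → ℝ) 2 = ρ / 2 := rfl
    rw [h7] at h1
    have h8 : ρ / 2 * ((X.d : ℝ) / 10 / 2 ^ k - Z) = ρ / (20 * 2 ^ k) * X.d - ρ / 2 * Z := by
      field_simp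
      ring
    have h9 : ρ / 2 * Z ≤ Z := by
      have := mul_le_mul_of_nonneg_right (show ρ / 2 ≤ 1 by linarith) hZ0
      linarith
    have h10 : ρ5 * X.d + ρ / (55 * 2 ^ k) * X.d ≤ ρ / (20 * 2 ^ k) * X.d := by
      rw [hρ5]
      have e1 : ρ / (20 * 2 ^ k) * (X.d : ℝ) - (ρ / (32 * 2 ^ k) * X.d +
          ρ / (55 * 2 ^ k) * X.d) = ρ * X.d / 2 ^ k * (1 / 20 - 1 / 32 - 1 / 55) := by
        field_simp
        ring
      have e2 : 0 ≤ ρ * X.d / 2 ^ k * (1 / 20 - 1 / 32 - 1 / 55 : ℝ) := by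
        apply mul_nonneg (by positivity) (by norm_num)
      linarith
    linarith
  · -- f6
    intro i hi u hu w hw huw hN
    have h1 := hCl.f6 i u w hi huw
    have h2 := cg_co (X := X) hY hS.as hOO i u w
    have h3 : ((nb X.FO u ∩ nb X.FO w).card : ℝ) = cO X.G X.bl u w := by
      unfold cO
      rw [nb_FO X hu, nb_FO X hw]
      congr 2
      ext y
      simp only [mem_inter]
      tauto
    rw [h3] at h1
    have h4 : (X.d : ℝ) ^ (6 / 10 : ℝ) ≤ cO X.G X.bl u w / (8 * 4 ^ k) := by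
      rw [le_div_iff₀ (by positivity)]
      linarith
    have h5 : cO X.G X.bl u w / (4 * 4 ^ k) = 2 * (cO X.G X.bl u w / (8 * 4 ^ k)) := by
      field_simp; ring
    have h6 : 1 / (8 * 4 ^ k) * cO X.G X.bl u w = cO X.G X.bl u w / (8 * 4 ^ k) := by ring
    linarith
  · -- f6'
    intro i hi u hu
    show 1 / (8 * 4 ^ k) * ∑ w ∈ LoS X u, cO X.G X.bl u w ≤
      ∑ w ∈ LoS X u, cO (Y.cg {i}) X.bl u w + (X.d : ℝ) ^ (185 / 100 : ℝ)
    have h1 := hCl.f6' i u hi
    have h2 : ns (inC (R true) (c true) i) u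
        (fun y => ∑ w ∈ LoS X u, sC (R false) (c false) i y w) ≤
        ∑ w ∈ LoS X u, cO (Y.cg {i}) X.bl u w := by
      rw [ns_sum]
      exact sum_le_sum fun w _ => cg_co (X := X) hY hS.as hOO i u w
    have h3 : ∑ y ∈ nb X.FO u, ((nb X.FO y ∩ LoS X u).card : ℝ) =
        ∑ w ∈ LoS X u, cO X.G X.bl u w := by
      have e1 : ∀ y, ((nb X.FO y ∩ LoS X u).card : ℝ) =
          ∑ w ∈ LoS X u, if X.FO.Adj y w then (1 : ℝ) else 0 := by
        intro y
        rw [inter_comm, Finset.sum_boole]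
        congr 2
        ext w
        simp only [nb, mem_inter, mem_filter, mem_univ, true_and]
      rw [sum_congr rfl fun y _ => e1 y, sum_comm]
      refine sum_congr rfl fun w hw => ?_
      have hwO : w ∈ OO X.bl := (mem_filter.1 hw).1
      unfold cO
      rw [Finset.sum_boole]
      congr 2
      rw [nb_FO X hu]
      ext y
      simp only [mem_filter, mem_inter]
      constructor
      · rintro ⟨⟨h4, h5⟩, h6⟩
        exact ⟨⟨h4, (mem_inter.1 (hFO w y h6.symm)).1⟩, h5⟩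
      · rintro ⟨⟨h4, h5⟩, h6⟩
        refine ⟨⟨h4, h6⟩, ?_⟩
        have : y ∈ nb X.FO w := by rw [nb_FO X hwO]; exact mem_inter.2 ⟨h5, h6⟩
        simp only [nb, mem_filter, mem_univ, true_and] at this
        exact this.symm
    rw [h3] at h1
    have h4 : 0 ≤ ∑ w ∈ LoS X u, cO X.G X.bl u w :=
      sum_nonneg fun w _ => by unfold cO; positivity
    have h5 : (X.d : ℝ) ^ (17 / 10 : ℝ) ≤ (X.d : ℝ) ^ (185 / 100 : ℝ) :=
      Real.rpow_le_rpow_of_exponent_le (by linarith) (by norm_num)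
    have h6 : 1 / (8 * 4 ^ k) * ∑ w ∈ LoS X u, cO X.G X.bl u w ≤
        (∑ w ∈ LoS X u, cO X.G X.bl u w) / (4 * 4 ^ k) := by
      have h7 : 1 / (8 * 4 ^ k) ≤ 1 / (4 * (4 : ℝ) ^ k) :=
        one_div_le_one_div_of_le (by positivity) (by linarith)
      calc _ ≤ 1 / (4 * 4 ^ k) * ∑ w ∈ LoS X u, cO X.G X.bl u w :=
            mul_le_mul_of_nonneg_right h7 h4
        _ = _ := by ring
    linarith
  · -- f7
    intro i hi u hu Fs hFs
    have h1 := hCl.f7 i u (Fs ∩ NbS X u) hi inter_subset_right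
      ((card_le_card inter_subset_left).trans (Nat.le_floor hFs))
    have h2 := cg_sum hY hS.as i u (lgF X.G X.bl X.d (Fs ∩ NbS X u))
    have h3 : nb X.FO u ∩ lgF X.G X.bl X.d (Fs ∩ NbS X u) = nb X.G u ∩ lgF X.G X.bl X.d Fs := by
      rw [lgF_near X u Fs, nb_FO X hu, inter_assoc, inter_eq_right.2 (lgF_O X _)]
    have h4 : nb (Y.cg {i}) u ∩ lgF X.G X.bl X.d (Fs ∩ NbS X u) ⊆
        nb (Y.cg {i}) u ∩ lgF X.G X.bl X.d Fs := by
      intro y hy
      have hyG : y ∈ nb X.G u := by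
        have h5 := (mem_inter.1 hy).1
        simp only [nb, mem_filter, mem_univ, true_and] at h5
        rcases h5.2 with h6 | h6
        · exact (mem_inter.1 (hFO _ _ (harF _ _ h6.1))).1
        · exact (mem_inter.1 (hFO _ _ (harF _ _ h6.1).symm)).1
      have h5 : y ∈ nb X.G u ∩ lgF X.G X.bl X.d (Fs ∩ NbS X u) :=
        mem_inter.2 ⟨hyG, (mem_inter.1 hy).2⟩
      rw [← lgF_near X u Fs] at h5
      exact mem_inter.2 ⟨(mem_inter.1 hy).1, (mem_inter.1 h5).2⟩
    have h5 : ((nb (Y.cg {i}) u ∩ lgF X.G X.bl X.d (Fs ∩ NbS X u)).card : ℝ) ≤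
        ((nb (Y.cg {i}) u ∩ lgF X.G X.bl X.d Fs).card : ℝ) := by
      rw [Nat.cast_le]; exact card_le_card h4
    rw [h3] at h1
    have h6 : (X.d : ℝ) ^ (6 / 10 : ℝ) ≤ (X.d : ℝ) ^ (8 / 10 : ℝ) :=
      Real.rpow_le_rpow_of_exponent_le (by linarith) (by norm_num)
    have h7 : 1 / (8 * 4 ^ k) * ((nb X.G u ∩ lgF X.G X.bl X.d Fs).card : ℝ) ≤
        ((nb X.G u ∩ lgF X.G X.bl X.d Fs).card : ℝ) / 2 ^ k := by
      rw [div_eq_mul_one_div ((nb X.G u ∩ lgF X.G X.bl X.d Fs).card : ℝ), mul_comm]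
      refine mul_le_mul_of_nonneg_left ?_ (Nat.cast_nonneg _)
      exact one_div_le_one_div_of_le h2kp (by linarith)
    linarith
  · -- f8
    intro i hi y hy
    have h2 := cg_sum hY hS.as i y (OO X.bl)
    have h3 : ∀ s, ns (inC (R s) (c s) i) y (fun z => if z ∈ OO X.bl then 1 else 0) =
        ct (inC (R s) (c s) i) y + ct (inC (rv (R s)) (sw (c s)) i) y := by
      intro s
      have e1 : ∀ v w, inC (R s) (c s) i v w → ¬ inC (R s) (c s) i w v :=
        fun v w h4 h5 => hS.as s s v w h4.1 h5.1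
      rw [ns_congr (g' := fun _ => 1), ns_eq e1, os_one, os_one]
      · rfl
      · intro z hz
        have : z ∈ OO X.bl := by
          rcases hz with h4 | h4
          · exact (hOO _ _ _ h4.1).2
          · exact (hOO _ _ _ h4.1).1
        rw [if_pos this]
    rw [Fintype.sum_bool, h3, h3] at h2
    have h4 : ∀ s, ct (R s) y / 2 ^ k - (X.d : ℝ) ^ (485 / 1000 : ℝ) ≤
        ct (inC (R s) (c s) i) y := by
      intro s
      have h5 := hCl.out.dv s i y hi
      have h6 : |dv k (R s) (c s) i y| ≤ 2 ^ k * |dv k (R s) (c s) i y| :=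
        le_mul_of_one_le_left (abs_nonneg _) h2k
      have h7 := (abs_le.1 (h6.trans h5)).1
      unfold dv at h7
      linarith
    have h4' : ∀ s, ct (rv (R s)) y / 2 ^ k - (X.d : ℝ) ^ (485 / 1000 : ℝ) ≤
        ct (inC (rv (R s)) (sw (c s)) i) y := by
      intro s
      have h5 := hCl.inn.dv s i y hi
      have h6 : |dv k (rv (R s)) (sw (c s)) i y| ≤ 2 ^ k * |dv k (rv (R s)) (sw (c s)) i y| :=
        le_mul_of_one_le_left (abs_nonneg _) h2k
      have h7 := (abs_le.1 (h6.trans h5)).1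
      unfold dv at h7
      linarith
    have h5 := sum_ns hS y fun _ => 1
    rw [Fintype.sum_bool, ns_eq (hS.as true true), ns_eq (hS.as false false), os_one, os_one,
      os_one, os_one, sum_const, nsmul_eq_mul, mul_one] at h5
    have h6 : ((nb X.G y ∩ OO X.bl).card : ℝ) / 2 ^ k = ct (R true) y / 2 ^ k +
        ct (rv (R true)) y / 2 ^ k + (ct (R false) y / 2 ^ k + ct (rv (R false)) y / 2 ^ k) := by
      rw [← nb_FO X hy, ← h5]; ring
    have h7 : 1 / (8 * 4 ^ k) * ((nb X.G y ∩ OO X.bl).card : ℝ) ≤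
        ((nb X.G y ∩ OO X.bl).card : ℝ) / 2 ^ k := by
      rw [div_eq_mul_one_div ((nb X.G y ∩ OO X.bl).card : ℝ), mul_comm]
      refine mul_le_mul_of_nonneg_left ?_ (Nat.cast_nonneg _)
      exact one_div_le_one_div_of_le h2kp (by linarith)
    have a1 := h4 true
    have a2 := h4 false
    have a3 := h4' true
    have a4 := h4' false
    linarith
  · -- external tests
    intro q j hj
    have e1 : ∑ x, f q x * Y.nt k σ bs fl j x =
        (∑ x, f q x * nzr k σ bs fl (R true) (c true) j x +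
          ∑ x, f q x * nzr k σ bs fl (rv (R true)) (sw (c true)) j x) +
        (∑ x, f q x * nzr k σ bs fl (R false) (c false) j x +
          ∑ x, f q x * nzr k σ bs fl (rv (R false)) (sw (c false)) j x) := by
      rw [← sum_add_distrib, ← sum_add_distrib, ← sum_add_distrib]
      refine sum_congr rfl fun x _ => ?_
      unfold Arcs.nt
      rw [Fintype.sum_bool, nz_eq hY hCc hj, nz_eq hY hCc hj, nz_eq hY.rev hCc hj,
        nz_eq hY.rev hCc hj]
      ring
    rw [e1]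
    have a1 := hCl.out.ext true q j hj
    have a2 := hCl.inn.ext true q j hj
    have a3 := hCl.out.ext false q j hj
    have a4 := hCl.inn.ext false q j hj
    refine (abs_add_le _ _).trans ?_
    have b1 := abs_add_le (∑ x, f q x * nzr k σ bs fl (R true) (c true) j x)
      (∑ x, f q x * nzr k σ bs fl (rv (R true)) (sw (c true)) j x)
    have b2 := abs_add_le (∑ x, f q x * nzr k σ bs fl (R false) (c false) j x)
      (∑ x, f q x * nzr k σ bs fl (rv (R false)) (sw (c false)) j x)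
    linarith

end Pool.Agent.Work.MP_db9399_ts.helper39
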