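import Pool.Agent.Work.MP_db9399_ts_helper39.Tools

/-!
# MP_db9399, TSPLIT, OSYS, part 3: symmetric sums, systems (helper39)
-/

set_option autoImplicit false

namespace Pool.Agent.Work.MP_db9399_ts.helper39

open Finset Classical
open Pool.Agent.Work.MP_db9399_all (nb)
open Pool.Agent.Work.MP_db9399_ts

universe u

section ns

variable {W : Type u} [Fintype W]

/-- sum over the neighbours in both directions -/
noncomputable def ns (R : W → W → Prop) (x : W) (g : W → ℝ) : ℝ :=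
  ∑ y, if R x y ∨ R y x then g y else 0

theorem ns_eq {R : W → W → Prop} (h : ∀ v w, R v w → ¬ R w v) (x : W) (g : W → ℝ) :
    ns R x g = os R x g + os (rv R) x g := by
  unfold ns os rv
  rw [← sum_add_distrib]
  refine sum_congr rfl fun y _ => ?_
  by_cases h1 : R x y
  · have h2 := h x y h1
    simp [h1, h2]
  · by_cases h2 : R y x <;> simp [h1, h2]

theorem ns_mono {R : W → W → Prop} {x : W} {g g' : W → ℝ}
    (h : ∀ y, (R x y ∨ R y x) → g y ≤ g' y) : ns R x g ≤ ns R x g' := by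
  refine sum_le_sum fun y _ => ?_
  split_ifs with h1
  · exact h y h1
  · exact le_rfl

theorem ns_congr {R : W → W → Prop} {x : W} {g g' : W → ℝ}
    (h : ∀ y, (R x y ∨ R y x) → g y = g' y) : ns R x g = ns R x g' := by
  refine sum_congr rfl fun y _ => ?_
  split_ifs with h1
  · exact h y h1
  · rfl

/-- double counting -/
theorem ns_swap (R C : W → W → Prop) (u w : W) :
    ns R u (fun y => if C y w ∨ C w y then 1 else 0) =
      ns C w (fun y => if R u y ∨ R y u then 1 else 0) := by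
  unfold ns
  refine sum_congr rfl fun y _ => ?_
  by_cases h1 : R u y ∨ R y u
  · by_cases h2 : C y w ∨ C w y
    · have h3 : C w y ∨ C y w := h2.symm
      simp [h1, h2, h3]
    · have h3 : ¬ (C w y ∨ C y w) := fun h => h2 h.symm
      simp [h1, h2, h3]
  · simp [h1]

theorem ns_sum {ι : Type*} (R : W → W → Prop) (x : W) (T : Finset ι) (g : ι → W → ℝ) :
    ns R x (fun y => ∑ i ∈ T, g i y) = ∑ i ∈ T, ns R x (g i) := by
  unfold ns
  rw [sum_comm]
  refine sum_congr rfl fun y _ => ?_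
  split_ifs
  · rfl
  · rw [sum_const_zero]

/-- the symmetric form of the tests at a vertex -/
theorem cv_ns {τ κ : Type u} {k : ℕ} {γ : ℝ} {d : ℕ} {R : W → W → Prop}
    {c : W → W → ℕ} {f : τ → W → ℝ} {xx : κ → W} {g : κ → W → ℝ} (h : CV k γ d R c f xx g)
    (hR : ∀ v w, R v w → ¬ R w v) (hd : 1 ≤ d)
    (h1 : ∀ v, ct R v ≤ d) (h2 : ∀ v, ct (rv R) v ≤ d) (t : κ) (i : ℕ) (hi : i < 2 ^ k) (M : ℝ)
    (hM : ∀ y, |g t y| ≤ M) :
    |ns (inC R c i) (xx t) (g t) - ns R (xx t) (g t) / 2 ^ k| ≤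
      2 * Real.log d ^ 2 * (d : ℝ) ^ ((1 + γ) / 2) * M := by
  have hd0 : (0 : ℝ) < d := by exact_mod_cast hd
  have hM0 : 0 ≤ M := (abs_nonneg _).trans (hM (xx t))
  have key : ∀ R' : W → W → Prop, (∀ v, ct R' v ≤ d) →
      Real.sqrt (os R' (xx t) fun y => g t y ^ 2) ≤ (d : ℝ) ^ (1 / 2 : ℝ) * M := by
    intro R' h'
    rw [← Real.sqrt_eq_rpow]
    rw [show M = Real.sqrt (M ^ 2) from (Real.sqrt_sq hM0).symm, ← Real.sqrt_mul hd0.le]
    refine Real.sqrt_le_sqrt ?_
    calc os R' (xx t) (fun y => g t y ^ 2) ≤ M ^ 2 * ct R' (xx t) := by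
          refine os_le_ct fun y _ => ?_
          rw [← sq_abs]
          exact pow_le_pow_left₀ (abs_nonneg _) (hM y) 2
      _ ≤ M ^ 2 * d := mul_le_mul_of_nonneg_left (h' _) (sq_nonneg _)
      _ = _ := mul_comm _ _
  have e1 := h.go t i hi
  have e2 := h.gi t i hi
  have hRi : ∀ v w, inC R c i v w → ¬ inC R c i w v := fun v w h' h'' => hR v w h'.1 h''.1
  rw [ns_eq hR, ns_eq hRi, show rv (inC R c i) = inC (rv R) (sw c) i from rfl]
  have e3 : ∀ z : ℝ, z ≤ (d : ℝ) ^ (1 / 2 : ℝ) * M →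
      Real.log d ^ 2 * (d : ℝ) ^ (γ / 2) * z ≤ Real.log d ^ 2 * (d : ℝ) ^ ((1 + γ) / 2) * M := by
    intro z hz
    calc _ ≤ Real.log d ^ 2 * (d : ℝ) ^ (γ / 2) * ((d : ℝ) ^ (1 / 2 : ℝ) * M) :=
          mul_le_mul_of_nonneg_left hz (by positivity)
      _ = Real.log d ^ 2 * ((d : ℝ) ^ (γ / 2) * (d : ℝ) ^ (1 / 2 : ℝ)) * M := by ring
      _ = _ := by rw [← Real.rpow_add hd0]; congr 3; ring
  have e4 := e1.trans (e3 _ (key R h1))
  have e5 := e2.trans (e3 _ (key (rv R) h2))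
  have e6 := abs_add_le (os (inC R c i) (xx t) (g t) - os R (xx t) (g t) / 2 ^ k)
    (os (inC (rv R) (sw c) i) (xx t) (g t) - os (rv R) (xx t) (g t) / 2 ^ k)
  calc |os (inC R c i) (xx t) (g t) + os (inC (rv R) (sw c) i) (xx t) (g t) -
        (os R (xx t) (g t) + os (rv R) (xx t) (g t)) / 2 ^ k|
      = |os (inC R c i) (xx t) (g t) - os R (xx t) (g t) / 2 ^ k +
        (os (inC (rv R) (sw c) i) (xx t) (g t) - os (rv R) (xx t) (g t) / 2 ^ k)| := by
        congr 1; ring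
    _ ≤ _ := e6
    _ ≤ _ := by linarith

end ns

/-- The two systems. -/
structure Sy {W : Type u} [Fintype W] (F : SimpleGraph W) (d : ℕ) (Lo : W → Finset W)
    (R : Bool → W → W → Prop) : Prop where
  sub : ∀ s v w, R s v w → F.Adj v w
  as : ∀ s s' v w, R s v w → ¬ R s' w v
  dj : ∀ v w, R true v w → ¬ R false v w
  cov : ∀ v w, F.Adj v w → ∃ s, R s v w ∨ R s w v
  o : ∀ s v, |ct (R s) v - ((nb F v).card : ℝ) / 4| ≤ (d : ℝ) ^ (505 / 1000 : ℝ)
  i : ∀ s v, |ct (rv (R s)) v - ((nb F v).card : ℝ) / 4| ≤ (d : ℝ) ^ (505 / 1000 : ℝ)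
  cd : ∀ u w, u ≠ w → |ns (R false) w (fun y => if R true u y ∨ R true y u then 1 else 0) -
    ((nb F u ∩ nb F w).card : ℝ) / 4| ≤ (d : ℝ) ^ (505 / 1000 : ℝ)
  lo : ∀ u, (∑ y ∈ nb F u, ((nb F y ∩ Lo u).card : ℝ)) / 4 -
    2 * ((d : ℝ) * (d : ℝ) ^ (505 / 1000 : ℝ)) ≤
    ns (R true) u (fun y => ns (R false) y (fun w => if w ∈ Lo u then 1 else 0))

theorem card_nb_inter {W : Type u} [Fintype W] (F : SimpleGraph W) (x : W) (S : Finset W) :
    ∑ w ∈ nb F x, (if w ∈ S then (1 : ℝ) else 0) = ((nb F x ∩ S).card : ℝ) := by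
  rw [← Finset.filter_mem_eq_inter, Finset.sum_boole]

/-- Systems exist. -/
theorem sys_ex (hHLV : MP_db9399_oo.Stmt_HLV.{u}) : ∃ d0 : ℕ, ∀ {W : Type u} [Fintype W]
    (F : SimpleGraph W) (d : ℕ) (Lo : W → Finset W), d0 ≤ d → (∀ v, (nb F v).card ≤ d) →
    ∃ R : Bool → W → W → Prop, Sy F d Lo R := by
  obtain ⟨d0, h⟩ := hHLV
  refine ⟨max d0 2, ?_⟩
  intro W _ F d Lo hd hF
  have hd0 : d0 ≤ d := (le_max_left _ _).trans hd
  have hd2 : 2 ≤ d := (le_max_right _ _).trans hd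
  have hdr : (2 : ℝ) ≤ d := by exact_mod_cast hd2
  have hdp : (0 : ℝ) < d := by linarith
  -- the tests
  set g1 : W × W → W → ℝ := fun t w => if F.Adj t.1 t.2 ∧ w ∈ Lo t.2 then 1 else 0 with hg1
  set g2 : W → W → ℝ := fun u y => ((nb F y ∩ Lo u).card : ℝ) / d with hg2
  have hV1 : VF F (fun t : W × W => t.1) g1 d 2 := by
    refine vf_pair F d hF g1 (fun x u y hxy hne => Or.inl ?_) hd2
    by_contra h1
    exact hne (by simp [hg1, h1])
  have hV2 : VF F (fun t : W => t) g2 d 1 := vf_self F d g2 hd2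
  have hV := VF.sum hV1 hV2 hd2 (by norm_num)
  obtain ⟨H, Dr, hH, hext⟩ := h (κ := (W × W) ⊕ W) F d (Sum.elim (fun t => t.1) fun t => t)
    (Sum.elim g1 g2) hd0 hF (by
      rintro (t | u) v
      · simp only [Sum.elim_inl, hg1]
        split_ifs <;> simp
      · simp only [Sum.elim_inr, hg2]
        rw [abs_of_nonneg (by positivity), div_le_one hdp, Nat.cast_le]
        exact (card_le_card inter_subset_left).trans (hF v)) (by
      intro v w hvw
      have h1 := hV v w hvw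
      have h2 : (d : ℝ) ^ (2 + 1 : ℝ) ≤ (d : ℝ) ^ (8 : ℝ) := pow_mono hd2 (by norm_num)
      have h3 := h1.trans h2
      rw [show (8 : ℝ) = ((8 : ℕ) : ℝ) by norm_num, Real.rpow_natCast] at h3
      exact_mod_cast h3)
  set R : Bool → W → W → Prop := fun s v w => (H s).Adj v w ∧ Dr v w with hR
  have hsym : ∀ s v w, (R s v w ∨ R s w v) ↔ (H s).Adj v w := by
    intro s v w
    constructor
    · rintro (h1 | h1)
      · exact h1.1
      · exact h1.1.symm
    · intro h1
      rcases hH.ori.or v w (hH.le s h1) with h2 | h2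
      · exact Or.inl ⟨h1, h2⟩
      · exact Or.inr ⟨h1.symm, h2⟩
  have hns : ∀ s x (g : W → ℝ), ns (R s) x g = ∑ y ∈ nb (H s) x, g y := by
    intro s x g
    unfold ns nb
    rw [Finset.sum_filter]
    refine sum_congr rfl fun y _ => ?_
    by_cases h1 : (H s).Adj x y
    · rw [if_pos h1, if_pos ((hsym s x y).2 h1)]
    · rw [if_neg h1, if_neg (fun h2 => h1 ((hsym s x y).1 h2))]
  have hd1 : ∀ v w, (H true).Adj v w → ¬ (H false).Adj v w := hH.dis
  refine ⟨R, ?_, ?_, ?_, ?_, ?_, ?_, ?_, ?_⟩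
  · exact fun s v w h1 => hH.le s h1.1
  · exact fun s s' v w h1 h2 => hH.ori.as v w h1.2 h2.2
  · exact fun v w h1 h2 => hd1 v w h1.1 h2.1
  · intro v w h1
    obtain ⟨s, hs⟩ := hH.cov v w h1
    exact ⟨s, (hsym s v w).2 hs⟩
  · intro s v
    have h1 := hH.dg s true v
    refine le_trans (le_of_eq ?_) h1
    congr 2
    unfold ct MP_db9399_oo.no nb
    rw [Finset.filter_filter]
    simp only [hR, if_true]
  · intro s v
    have h1 := hH.dg s false v
    refine le_trans (le_of_eq ?_) h1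
    congr 2
    unfold ct MP_db9399_oo.no nb rv
    rw [Finset.filter_filter]
    simp only [hR]
    congr 1
    refine card_bij' (fun a _ => a) (fun a _ => a) ?_ ?_ (fun _ _ => rfl) (fun _ _ => rfl)
    · intro a ha
      simp only [mem_filter, mem_univ, true_and, Bool.false_eq_true, if_false] at ha ⊢
      exact ⟨ha.1.symm, ha.2⟩
    · intro a ha
      simp only [mem_filter, mem_univ, true_and, Bool.false_eq_true, if_false] at ha ⊢
      exact ⟨ha.1.symm, ha.2⟩
  · intro u w huw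
    refine le_trans (le_of_eq ?_) (hH.cd u w huw)
    congr 2
    rw [hns]
    rw [inter_comm (nb (H true) u), ← card_nb_inter]
    refine sum_congr rfl fun y _ => ?_
    have : y ∈ nb (H true) u ↔ (R true u y ∨ R true y u) := by
      rw [hsym]; simp [nb]
    by_cases h1 : y ∈ nb (H true) u
    · rw [if_pos h1, if_pos (this.1 h1)]
    · rw [if_neg h1, if_neg (fun h2 => h1 (this.2 h2))]
  · intro u
    have e1 := hext true (Sum.inr u)
    simp only [Sum.elim_inr, hg2] at e1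
    rw [← sum_div, ← sum_div] at e1
    set S := ∑ y ∈ nb F u, ((nb F y ∩ Lo u).card : ℝ) with hS
    set S1 := ∑ y ∈ nb (H true) u, ((nb F y ∩ Lo u).card : ℝ) with hS1
    have e2 : S / 2 - (d : ℝ) * (d : ℝ) ^ (505 / 1000 : ℝ) ≤ S1 := by
      have h1 := (abs_le.1 e1).1
      have h2 : d * (S / d / 2 - (d : ℝ) ^ (505 / 1000 : ℝ)) ≤ d * (S1 / d) :=
        mul_le_mul_of_nonneg_left (by linarith) hdp.le
      have h3 : (d : ℝ) * (S1 / d) = S1 := mul_div_cancel₀ _ hdp.ne'
      have h4 : (d : ℝ) * (S / d / 2 - (d : ℝ) ^ (505 / 1000 : ℝ)) =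
          S / 2 - (d : ℝ) * (d : ℝ) ^ (505 / 1000 : ℝ) := by
        field_simp
      linarith
    have e3 : ∀ y ∈ nb (H true) u, ((nb F y ∩ Lo u).card : ℝ) / 2 - (d : ℝ) ^ (505 / 1000 : ℝ) ≤
        ns (R false) y (fun w => if w ∈ Lo u then 1 else 0) := by
      intro y hy
      have hy1 : F.Adj y u := by
        have : (H true).Adj u y := by simpa [nb] using hy
        exact (hH.le true this).symm
      have h1 := hext false (Sum.inl (y, u))
      simp only [Sum.elim_inl, hg1, hy1, true_and] at h1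
      rw [card_nb_inter, card_nb_inter] at h1
      have h2 := (abs_le.1 h1).1
      rw [hns, card_nb_inter]
      linarith
    rw [hns]
    have e4 : S1 / 2 - (d : ℝ) * (d : ℝ) ^ (505 / 1000 : ℝ) ≤
        ∑ y ∈ nb (H true) u, ns (R false) y (fun w => if w ∈ Lo u then 1 else 0) := by
      refine le_trans ?_ (sum_le_sum e3)
      rw [sum_sub_distrib, ← sum_div, sum_const, nsmul_eq_mul]
      have h1 : ((nb (H true) u).card : ℝ) ≤ d := by
        rw [Nat.cast_le]
        refine (card_le_card fun y hy => ?_).trans (hF u)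
        simp only [nb, mem_filter, mem_univ, true_and] at hy ⊢
        exact hH.le true hy
      have h2 : ((nb (H true) u).card : ℝ) * (d : ℝ) ^ (505 / 1000 : ℝ) ≤
          (d : ℝ) * (d : ℝ) ^ (505 / 1000 : ℝ) :=
        mul_le_mul_of_nonneg_right h1 (Real.rpow_nonneg hdp.le _)
      linarith
    have h5 : 0 ≤ (d : ℝ) * (d : ℝ) ^ (505 / 1000 : ℝ) := by positivity
    linarith

end Pool.Agent.Work.MP_db9399_ts.helper39
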