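import Pool.Agent.Work.MP_db9399_ts_helper39.CG

/-!
# MP_db9399, TSPLIT, OSYS, part 2: tools (helper39)
-/

set_option autoImplicit false

namespace Pool.Agent.Work.MP_db9399_ts.helper39

open Finset Classical
open Pool.Agent.Work.MP_db9399_all (nb)
open Pool.Agent.Work.MP_db9399_ts

universe u

/-- powers of logarithms -/
theorem big (C : ℝ) (m : ℕ) (a b : ℝ) (hab : a < b) : ∃ d0 : ℕ, ∀ d : ℕ, d0 ≤ d →
    C * Real.log d ^ m * (d : ℝ) ^ a ≤ (d : ℝ) ^ b := by
  have h := isLittleO_log_rpow_rpow_atTop (m : ℝ) (show (0 : ℝ) < b - a by linarith)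
  have h1 := h.def (c := 1 / (|C| + 1)) (by positivity)
  have h2 := (tendsto_natCast_atTop_atTop (R := ℝ)).eventually h1
  obtain ⟨d0, h3⟩ := Filter.eventually_atTop.1 h2
  refine ⟨max d0 1, fun d hd => ?_⟩
  have h4 := h3 d ((le_max_left _ _).trans hd)
  have hd1 : (1 : ℝ) ≤ d := by exact_mod_cast (le_max_right _ _).trans hd
  have hd0 : (0 : ℝ) < d := by linarith
  have hl : 0 ≤ Real.log d := Real.log_nonneg hd1
  rw [Real.norm_of_nonneg (Real.rpow_nonneg hl _), Real.norm_of_nonneg
    (Real.rpow_nonneg hd0.le _), Real.rpow_natCast] at h4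
  have h5 : C * Real.log d ^ m ≤ (d : ℝ) ^ (b - a) := by
    calc C * Real.log d ^ m ≤ (|C| + 1) * Real.log d ^ m :=
          mul_le_mul_of_nonneg_right (by have := le_abs_self C; linarith) (pow_nonneg hl _)
      _ ≤ (|C| + 1) * (1 / (|C| + 1) * (d : ℝ) ^ (b - a)) :=
          mul_le_mul_of_nonneg_left h4 (by positivity)
      _ = _ := by
          rw [← mul_assoc, mul_one_div_cancel (by positivity), one_mul]
  calc C * Real.log d ^ m * (d : ℝ) ^ a ≤ (d : ℝ) ^ (b - a) * (d : ℝ) ^ a :=
        mul_le_mul_of_nonneg_right h5 (Real.rpow_nonneg hd0.le _)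
    _ = _ := by rw [← Real.rpow_add hd0]; ring_nf

section fam

variable {V : Type u} [Fintype V]

theorem two_pow {d : ℕ} {A : ℝ} (hd : 2 ≤ d) : 2 * (d : ℝ) ^ A ≤ (d : ℝ) ^ (A + 1) := by
  have hdr : (2 : ℝ) ≤ d := by exact_mod_cast hd
  rw [Real.rpow_add (by linarith), Real.rpow_one, mul_comm]
  exact mul_le_mul_of_nonneg_left hdr (Real.rpow_nonneg (by linarith) _)

theorem pow_mono {d : ℕ} {A A' : ℝ} (hd : 2 ≤ d) (h : A ≤ A') : (d : ℝ) ^ A ≤ (d : ℝ) ^ A' := by
  have hdr : (2 : ℝ) ≤ d := by exact_mod_cast hd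
  exact Real.rpow_le_rpow_of_exponent_le (by linarith) h

theorem Fam.mono {τ : Type u} [Fintype τ] {f : τ → V → ℝ} {d : ℕ} {A A' : ℝ} (h : Fam f d A)
    (hd : 2 ≤ d) (hA : A ≤ A') : Fam f d A' :=
  ⟨fun q => (h.sp q).trans (pow_mono hd hA), fun v => (h.mu v).trans (pow_mono hd hA)⟩

theorem Fam.sum {τ τ' : Type u} [Fintype τ] [Fintype τ'] {f : τ → V → ℝ} {g : τ' → V → ℝ} {d : ℕ}
    {A A' : ℝ} (hf : Fam f d A) (hg : Fam g d A') (hd : 2 ≤ d) (hA : A' ≤ A) :
    Fam (Sum.elim f g) d (A + 1) := by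
  have hg' := Fam.mono hg hd hA
  have h1 : (d : ℝ) ^ A ≤ (d : ℝ) ^ (A + 1) := pow_mono hd (by linarith)
  refine ⟨fun q => ?_, fun v => ?_⟩
  · rcases q with q | q
    · exact (hf.sp q).trans h1
    · exact (hg'.sp q).trans h1
  · refine le_trans (le_of_eq ?_) ((add_le_add (hf.mu v) (hg'.mu v)).trans
      (by have := two_pow (A := A) hd; linarith))
    rw [← Finset.sum_boole, ← Finset.sum_boole, ← Finset.sum_boole, Fintype.sum_sum_type]
    rfl

/-- finitely many parameters -/
theorem Fam.prod {τ ι : Type u} [Fintype τ] [Fintype ι] {f : τ × ι → V → ℝ} {d : ℕ} {A : ℝ}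
    (hf : ∀ i, Fam (fun t => f (t, i)) d A) (hd : 2 ≤ d) (hn : Fintype.card ι ≤ d) :
    Fam f d (A + 1) := by
  have h1 : (d : ℝ) ^ A ≤ (d : ℝ) ^ (A + 1) := pow_mono hd (by linarith)
  refine ⟨fun q => ((hf q.2).sp q.1).trans h1, fun v => ?_⟩
  have h2 : ∀ i, ((univ.filter fun t => f (t, i) v ≠ 0).card : ℝ) ≤ (d : ℝ) ^ A :=
    fun i => (hf i).mu v
  have hdr : (2 : ℝ) ≤ d := by exact_mod_cast hd
  rw [← Finset.sum_boole, Fintype.sum_prod_type_right]
  calc (∑ i, ∑ t, if f (t, i) v ≠ 0 then (1 : ℝ) else 0) ≤ ∑ _i : ι, (d : ℝ) ^ A := by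
        refine sum_le_sum fun i _ => ?_
        rw [Finset.sum_boole]
        exact h2 i
    _ = Fintype.card ι * (d : ℝ) ^ A := by rw [sum_const, card_univ, nsmul_eq_mul]
    _ ≤ (d : ℝ) * (d : ℝ) ^ A := mul_le_mul_of_nonneg_right (by exact_mod_cast hn)
        (Real.rpow_nonneg (by linarith) _)
    _ = _ := by rw [Real.rpow_add (by linarith), Real.rpow_one, mul_comm]

theorem VF.mono {κ : Type u} [Fintype κ] {F : SimpleGraph V} {xx : κ → V} {g : κ → V → ℝ}
    {d : ℕ} {A A' : ℝ} (h : VF F xx g d A) (hd : 2 ≤ d) (hA : A ≤ A') : VF F xx g d A' :=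
  fun v w hF => (h v w hF).trans (pow_mono hd hA)

theorem VF.sum {κ κ' : Type u} [Fintype κ] [Fintype κ'] {F : SimpleGraph V} {xx : κ → V}
    {g : κ → V → ℝ} {xx' : κ' → V} {g' : κ' → V → ℝ} {d : ℕ} {A A' : ℝ} (hf : VF F xx g d A)
    (hg : VF F xx' g' d A') (hd : 2 ≤ d) (hA : A' ≤ A) :
    VF F (Sum.elim xx xx') (Sum.elim g g') d (A + 1) := by
  have hg' := VF.mono hg hd hA
  intro v w hF
  refine le_trans (le_of_eq ?_) ((add_le_add (hf v w hF) (hg' v w hF)).trans
      (by have := two_pow (A := A) hd; linarith))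
  rw [← Finset.sum_boole, ← Finset.sum_boole, ← Finset.sum_boole, Fintype.sum_sum_type]
  rfl

theorem VF.prod {κ ι : Type u} [Fintype κ] [Fintype ι] {F : SimpleGraph V} {xx : κ × ι → V}
    {g : κ × ι → V → ℝ} {d : ℕ} {A : ℝ}
    (hf : ∀ i, VF F (fun t => xx (t, i)) (fun t => g (t, i)) d A) (hd : 2 ≤ d)
    (hn : Fintype.card ι ≤ d) : VF F xx g d (A + 1) := by
  intro v w hF
  have h2 : ∀ i, ((univ.filter fun t => xx (t, i) = v ∧ g (t, i) w ≠ 0).card : ℝ) ≤
    (d : ℝ) ^ A := fun i => hf i v w hF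
  have hdr : (2 : ℝ) ≤ d := by exact_mod_cast hd
  rw [← Finset.sum_boole, Fintype.sum_prod_type_right]
  calc (∑ i, ∑ t, if xx (t, i) = v ∧ g (t, i) w ≠ 0 then (1 : ℝ) else 0) ≤
        ∑ _i : ι, (d : ℝ) ^ A := by
        refine sum_le_sum fun i _ => ?_
        rw [Finset.sum_boole]
        exact h2 i
    _ = Fintype.card ι * (d : ℝ) ^ A := by rw [sum_const, card_univ, nsmul_eq_mul]
    _ ≤ (d : ℝ) * (d : ℝ) ^ A := mul_le_mul_of_nonneg_right (by exact_mod_cast hn)
        (Real.rpow_nonneg (by linarith) _)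
    _ = _ := by rw [Real.rpow_add (by linarith), Real.rpow_one, mul_comm]

/-- a test for every vertex, supported near the vertex -/
theorem fam_near (F : SimpleGraph V) (d : ℕ) (hF : ∀ v, (nb F v).card ≤ d) (hd : 2 ≤ d)
    (f : V → V → ℝ) (hf : ∀ x y, f x y ≠ 0 → F.Adj x y) : Fam f d 1 := by
  refine ⟨fun q => ?_, fun v => ?_⟩
  · rw [Real.rpow_one, Nat.cast_le]
    refine (card_le_card fun y hy => ?_).trans (hF q)
    simp only [nb, mem_filter, mem_univ, true_and] at hy ⊢
    exact hf q y hy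
  · rw [Real.rpow_one, Nat.cast_le]
    refine (card_le_card fun y hy => ?_).trans (hF v)
    simp only [nb, mem_filter, mem_univ, true_and] at hy ⊢
    exact (hf y v hy).symm

/-- the tests of the single vertices -/
theorem fam_delta (d : ℕ) (hd : 2 ≤ d) : Fam (fun x y : V => if y = x then (1 : ℝ) else 0) d 1 := by
  have h1 : (1 : ℝ) ≤ (d : ℝ) ^ (1 : ℝ) := by
    rw [Real.rpow_one]; exact_mod_cast (by omega : 1 ≤ d)
  refine ⟨fun q => le_trans ?_ h1, fun v => le_trans ?_ h1⟩
  · rw [show (univ.filter fun v => (if v = q then (1 : ℝ) else 0) ≠ 0) = {q} from ?_]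
    · simp
    · ext y; by_cases h : y = q <;> simp [h]
  · rw [show (univ.filter fun q => (if v = q then (1 : ℝ) else 0) ≠ 0) = {v} from ?_]
    · simp
    · ext y
      by_cases h : v = y
      · simp [h]
      · have h' : y ≠ v := fun e => h e.symm
        simp [h, h']

/-- tests for pairs `(x, u)` at `x` -/
theorem vf_pair (F : SimpleGraph V) (d : ℕ) (hF : ∀ v, (nb F v).card ≤ d)
    (g : V × V → V → ℝ) (hg : ∀ x u y, F.Adj x y → g (x, u) y ≠ 0 → F.Adj x u ∨ F.Adj y u)
    (hd : 2 ≤ d) : VF F (fun t : V × V => t.1) g d 2 := by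
  intro v w hvw
  have h1 : ((univ.filter fun t : V × V => t.1 = v ∧ g t w ≠ 0).card) ≤ d + d := by
    calc _ ≤ (nb F v ∪ nb F w).card := by
          refine card_le_card_of_injOn (fun t => t.2) (fun t ht => ?_) (fun t ht s hs hts => ?_)
          · simp only [coe_filter, mem_univ, true_and, Set.mem_ofPred_eq] at ht
            obtain ⟨h3, h4⟩ := ht
            have h5 : g (v, t.2) w ≠ 0 := by rw [← h3]; exact h4
            have := hg v t.2 w hvw h5
            simp only [nb, coe_union, Set.mem_union, coe_filter, mem_univ, true_and,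
              Set.mem_ofPred_eq]
            exact this
          · simp only [coe_filter, mem_univ, true_and, Set.mem_ofPred_eq] at ht hs
            exact Prod.ext (ht.1.trans hs.1.symm) hts
      _ ≤ _ := (card_union_le _ _).trans (add_le_add (hF v) (hF w))
  have hdr : (2 : ℝ) ≤ d := by exact_mod_cast hd
  calc _ ≤ ((d + d : ℕ) : ℝ) := by exact_mod_cast h1
    _ ≤ (d : ℝ) * d := by push_cast; nlinarith
    _ = _ := by rw [show (2 : ℝ) = 1 + 1 by norm_num, Real.rpow_add (by linarith), Real.rpow_one]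

/-- a test for every vertex, at this vertex -/
theorem vf_self (F : SimpleGraph V) (d : ℕ) (g : V → V → ℝ) (hd : 2 ≤ d) :
    VF F (fun t : V => t) g d 1 := by
  intro v w _
  have h1 : ((univ.filter fun t : V => t = v ∧ g t w ≠ 0).card) ≤ 1 := by
    calc _ ≤ ({v} : Finset V).card := by
          refine card_le_card fun t ht => ?_
          simp only [mem_filter, mem_univ, true_and] at ht
          simp [ht.1]
      _ = 1 := card_singleton v
  calc _ ≤ ((1 : ℕ) : ℝ) := by exact_mod_cast h1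
    _ ≤ (d : ℝ) ^ (1 : ℝ) := by
      rw [Real.rpow_one, Nat.cast_le]; omega

/-- number of the small subsets -/
theorem card_small {B : Type u} [Fintype B] (N : Finset B) (K : ℕ) :
    (N.powerset.filter fun F => F.card ≤ K).card ≤ (N.card + 1) ^ K := by
  induction K with
  | zero =>
    rw [pow_zero]
    refine (card_le_card fun F hF => ?_).trans (card_singleton (∅ : Finset B)).le
    simp only [mem_filter, mem_powerset] at hF
    rw [mem_singleton]
    exact card_eq_zero.1 (by omega)
  | succ K ih =>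
    have h1 : (N.powerset.filter fun F => F.card ≤ K + 1) ⊆
        ((N.powerset.filter fun F => F.card ≤ K) ×ˢ (insert none (N.image some))).image
          (fun p : Finset B × Option B => match p.2 with
            | none => p.1
            | some b => insert b p.1) := by
      intro F hF
      simp only [mem_filter, mem_powerset] at hF
      rw [mem_image]
      by_cases hK : F.card ≤ K
      · exact ⟨(F, none), by simp [hF.1, hK], rfl⟩
      · have hne : F.Nonempty := by
          rw [nonempty_iff_ne_empty]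
          rintro rfl
          simp at hK
        obtain ⟨b, hb⟩ := hne
        refine ⟨(F.erase b, some b), ?_, insert_erase hb⟩
        simp only [mem_product, mem_filter, mem_powerset, mem_insert, mem_image, reduceCtorEq,
          Option.some.injEq, exists_eq_right, false_or]
        refine ⟨⟨(erase_subset _ _).trans hF.1, ?_⟩, hF.1 hb⟩
        rw [card_erase_of_mem hb]
        omega
    refine (card_le_card h1).trans (card_image_le.trans ?_)
    rw [card_product, pow_succ]
    refine Nat.mul_le_mul ih ?_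
    refine (card_insert_le _ _).trans ?_
    exact Nat.add_le_add_right card_image_le 1

end fam

end Pool.Agent.Work.MP_db9399_ts.helper39
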